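import Pool.Agent.Lib.MP_e6b4b8_nt.NL.Fam

/-!
Triangles with a vertex whose norm is not squarefree or has many divisors.
-/

set_option autoImplicit false

open Finset

namespace Pool.Agent.Lib.MP_e6b4b8_nt.NL

theorem not_dvd_idx {i j q : ℕ} (hij : Idx i j) (hq : q.Prime) (h2 : 2 < q) : ¬ q ∣ i := by
  intro h
  have := Nat.le_of_dvd (by rcases hij with ⟨rfl, -⟩ | ⟨rfl, -⟩ | ⟨rfl, -⟩ <;> omega) h
  have := hq.two_le
  rcases hij with ⟨rfl, -⟩ | ⟨rfl, -⟩ | ⟨rfl, -⟩ <;> omega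

theorem mid {M L T i j q : ℕ} (hM : 0 < M) (hij : Idx i j) (hq : q.Prime) (h2 : 2 < q)
    (hqM : ¬ q ∣ M) {p : ℕ × ℕ} (hp : p ∈ base M L) (S : Finset ℕ) (hS : S ⊆ Ico T (T + T))
    (h : ∀ t ∈ S, q ^ 2 ∣ nr (V M i j (p, t))) : (S.card : ℝ) ≤ 2 * (T / (q : ℝ) ^ 2 + 1) := by
  have hf : ∀ t ∈ S, (p, t) ∈ fam M L T := fun t ht => mem_product.2 ⟨hp, hS ht⟩
  have hq' : Prime (q : ℤ) := Nat.prime_iff_prime_int.1 hq
  have hq2 : 0 < q ^ 2 := pow_pos hq.pos 2
  have h1 := win_cover S T T (q ^ 2) hq2 hS (roots (q ^ 2))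
    (fun r t => ((q ^ 2 : ℕ) : ℤ) ∣ ((V M i j (p, t)).1 : ℤ) - r * (V M i j (p, t)).2)
    (fun t ht => root_ex (V_cop hM hij (hf t ht)) hq2 (h t ht)) (fun r _ t ht t' _ a1 a2 => by
      have d1 := V_det hM i j (hf t ht)
      push_cast at a1 a2 ⊢
      have a3 : (q : ℤ) ^ 2 ∣ (i * M * ((xx M p : ℤ) - r * yy M p)) * ((t : ℤ) - t') := by
        have := dvd_sub a1 a2
        have e : ((V M i j (p, t)).1 : ℤ) - r * (V M i j (p, t)).2 -
            (((V M i j (p, t')).1 : ℤ) - r * (V M i j (p, t')).2) =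
            (i * M * ((xx M p : ℤ) - r * yy M p)) * ((t : ℤ) - t') := by
          unfold V CC DD; push_cast; ring
        rwa [e] at this
      refine hq'.pow_dvd_of_dvd_mul_left 2 (fun h' => ?_) a3
      have ni : ¬ (q : ℤ) ∣ i := fun h => not_dvd_idx hij hq h2 (by exact_mod_cast h)
      rcases hq'.dvd_or_dvd h' with h' | h'
      · rcases hq'.dvd_or_dvd h' with h' | h'
        · exact ni h'
        · exact hqM (by exact_mod_cast h')
      · have a4 := (dvd_pow_self (q : ℤ) two_ne_zero).trans a1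
        have a5 := dvd_sub (h'.mul_right (V M i j (p, t)).2) (a4.mul_left (yy M p))
        have e : ((xx M p : ℤ) - r * yy M p) * (V M i j (p, t)).2 -
            yy M p * (((V M i j (p, t)).1 : ℤ) - r * (V M i j (p, t)).2) = i := by
          linear_combination d1
        rw [e] at a5
        exact ni a5)
  have h3 : ((roots (q ^ 2)).card : ℝ) ≤ 2 := by exact_mod_cast roots_sq hq (by omega)
  push_cast at h1
  exact h1.trans (mul_le_mul_of_nonneg_right h3 (by positivity))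

theorem nr_le {R : ℕ} {v : ℕ × ℕ} (hv : v ∈ box R) : nr v ≤ 2 * R ^ 2 := by
  have hb := mem_product.1 hv
  simp only [mem_range] at hb
  have a1 : v.1 ^ 2 ≤ R ^ 2 := Nat.pow_le_pow_left (by omega) 2
  have a2 : v.2 ^ 2 ≤ R ^ 2 := Nat.pow_le_pow_left (by omega) 2
  unfold nr; omega

theorem nr_pos {M L T i j : ℕ} (hM : 0 < M) (hL : 0 < L) (hT : 0 < T) (hij : Idx i j)
    {f : (ℕ × ℕ) × ℕ} (hf : f ∈ fam M L T) : 0 < nr (V M i j f) := by
  have := (V_bd hM hL hT hij hf).2.1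
  unfold nr; positivity

theorem bad_sq {I M L T R P i j : ℕ} (hI : 2 ≤ I) (hM : 0 < M) (hL : 0 < L) (hT : 0 < T)
    (hP : 0 < P) (hR : R = 10 * (M * (M * L) * T))
    (hM1 : ∀ q : ℕ, q.Prime → q ≤ I → q ^ 2 ∣ M) (hM2 : ∀ q : ℕ, q.Prime → I < q → ¬ q ∣ M)
    (hij : Idx i j) (U : Finset ((ℕ × ℕ) × ℕ)) (hU : U ⊆ fam M L T)
    (h : ∀ f ∈ U, ¬ Squarefree (nr (V M i j f))) :
    (U.card : ℝ) ≤ 2 * L ^ 2 * T / I + 2 * L ^ 2 * ((Icc 1 P).filter Nat.Prime).card +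
      24 * R ^ 2 / P := by
  set Q := (Ioc I (2 * R ^ 2)).filter fun q => q.Prime ∧ q ^ 2 ≤ 2 * R ^ 2 with hQ
  have h1 := cover U Q (fun q f => q ^ 2 ∣ nr (V M i j f))
    (fun q => 2 * (L : ℝ) ^ 2 * T * (1 / (q : ℝ) ^ 2) +
      if q ≤ P then 2 * (L : ℝ) ^ 2 else 24 * (R : ℝ) ^ 2 * (1 / (q : ℝ) ^ 2))
    (fun f hf => by
      have h2 := h f hf
      rw [Nat.squarefree_iff_prime_squarefree] at h2
      push Not at h2
      obtain ⟨q, hq, hd⟩ := h2
      rw [← sq] at hd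
      have l1 := Nat.le_of_dvd (nr_pos hM hL hT hij (hU hf)) hd
      have l2 := nr_le (V_bd hM hL hT hij (hU hf)).2.2
      rw [← hR] at l2
      have l3 : q ≤ q ^ 2 := Nat.le_self_pow two_ne_zero q
      refine ⟨q, mem_filter.2 ⟨mem_Ioc.2 ⟨?_, by omega⟩, hq, by omega⟩, hd⟩
      by_contra hc
      have m1 : ((q ^ 2 : ℕ) : ℤ) ∣ M := by exact_mod_cast hM1 q hq (by omega)
      have m2 : ((q ^ 2 : ℕ) : ℤ) ∣ nr (V M i j f) := by exact_mod_cast hd
      have m3 := (dvd_sub_right m2).1 (m1.trans (nr_mod hM i j (hU hf)))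
      have m4 : q ^ 2 ∣ i ^ 2 + j ^ 2 := by exact_mod_cast m3
      have m5 : 2 ^ 2 ≤ q ^ 2 := Nat.pow_le_pow_left hq.two_le 2
      rcases hij with ⟨rfl, rfl⟩ | ⟨rfl, rfl⟩ | ⟨rfl, rfl⟩
      · have := Nat.le_of_dvd (by norm_num) m4; omega
      · have := Nat.le_of_dvd (by norm_num) m4; omega
      · have m6 : q ∣ 5 := (dvd_pow_self q two_ne_zero).trans m4
        rw [(Nat.prime_dvd_prime_iff_eq hq Nat.prime_five).1 m6] at m4
        omega)
    (fun q hq W hW hr => by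
      obtain ⟨q1, hq, q2⟩ := mem_filter.1 hq
      rw [mem_Ioc] at q1
      split_ifs with hqP
      · have a1 := fiber (base M L) (Ico T (T + T)) W (hW.trans hU)
          (fun _ => 2 * (T / (q : ℝ) ^ 2 + 1)) fun p hp S hS hS' =>
            mid hM hij hq (by omega) (hM2 q hq q1.1) hp S hS fun t ht => hr _ (hS' t ht)
        rw [sum_const, nsmul_eq_mul] at a1
        refine (a1.trans (mul_le_mul_of_nonneg_right (card_base_le M L) (by positivity))).trans
          (le_of_eq ?_)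
        ring
      · have hinj := (V_inj hM hL hT hij).mono (coe_subset.2 (hW.trans hU))
        rw [← card_image_of_injOn hinj]
        have a1 := cnt_dvd (pow_pos hq.pos 2) q2 (W.image (V M i j)) (fun v hv => by
            obtain ⟨f, hf, rfl⟩ := mem_image.1 hv
            rw [hR]; exact (V_bd hM hL hT hij (hU (hW hf))).2.2) (fun v hv => by
            obtain ⟨f, hf, rfl⟩ := mem_image.1 hv
            exact ⟨V_cop hM hij (hU (hW hf)), hr f hf⟩)
        have a2 : ((roots (q ^ 2)).card : ℝ) ≤ 2 := by exact_mod_cast roots_sq hq (by omega)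
        have a3 := a1.trans (mul_le_mul_of_nonneg_right a2 (by positivity))
        push_cast at a3
        have a4 : (0 : ℝ) ≤ 2 * (L : ℝ) ^ 2 * T * (1 / (q : ℝ) ^ 2) := by positivity
        have a5 : 2 * (12 * (R : ℝ) ^ 2 / (q : ℝ) ^ 2) = 24 * (R : ℝ) ^ 2 * (1 / (q : ℝ) ^ 2) := by
          ring
        linarith)
  rw [sum_add_distrib, ← mul_sum, sum_ite, sum_const, nsmul_eq_mul, ← mul_sum] at h1
  have t1 := mul_le_mul_of_nonneg_left (tail_sq (by omega : 0 < I) Q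
    fun q hq => (mem_Ioc.1 (mem_filter.1 hq).1).1) (show (0 : ℝ) ≤ 2 * (L : ℝ) ^ 2 * T by positivity)
  have t2 := mul_le_mul_of_nonneg_left (tail_sq hP (Q.filter fun q => ¬ q ≤ P)
    fun q hq => not_le.1 (mem_filter.1 hq).2) (show (0 : ℝ) ≤ 24 * (R : ℝ) ^ 2 by positivity)
  have t3 : ((Q.filter fun q => q ≤ P).card : ℝ) ≤ ((Icc 1 P).filter Nat.Prime).card := by
    have : (Q.filter fun q => q ≤ P) ⊆ (Icc 1 P).filter Nat.Prime := fun q hq => by
      obtain ⟨a, b⟩ := mem_filter.1 hq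
      obtain ⟨-, c, -⟩ := mem_filter.1 a
      exact mem_filter.2 ⟨mem_Icc.2 ⟨c.pos, b⟩, c⟩
    exact_mod_cast card_le_card this
  have t4 := mul_le_mul_of_nonneg_right t3 (show (0 : ℝ) ≤ 2 * (L : ℝ) ^ 2 by positivity)
  rw [mul_one_div] at t1 t2
  linarith

theorem bad_tau {M L T R i j : ℕ} (hM : 0 < M) (hL : 0 < L) (hT : 0 < T)
    (hR : R = 10 * (M * (M * L) * T)) (hij : Idx i j) {K : ℝ} (hK : 0 < K)
    (U : Finset ((ℕ × ℕ) × ℕ)) (hU : U ⊆ fam M L T)
    (h : ∀ f ∈ U, K < ((nr (V M i j f)).divisors.card : ℝ)) :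
    (U.card : ℝ) ≤ 432 * R ^ 2 * (Nat.log 2 (2 * R) + 1) / K := by
  have hinj := (V_inj hM hL hT hij).mono (coe_subset.2 hU)
  have hR1 : 1 ≤ R := by rw [hR]; exact Nat.succ_le_of_lt (by positivity)
  have a1 := tau_sum hR1 (U.image (V M i j)) (fun v hv => by
      obtain ⟨f, hf, rfl⟩ := mem_image.1 hv
      rw [hR]; exact (V_bd hM hL hT hij (hU hf)).2.2) (fun v hv => by
      obtain ⟨f, hf, rfl⟩ := mem_image.1 hv
      exact V_cop hM hij (hU hf))
  rw [sum_image hinj] at a1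
  rw [le_div_iff₀ hK]
  refine le_trans ?_ a1
  rw [← nsmul_eq_mul, ← sum_const]
  exact sum_le_sum fun f hf => (h f hf).le

end Pool.Agent.Lib.MP_e6b4b8_nt.NL
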