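import Mathlib

/-!
Counting tools: residue classes in a window, square roots of `-1`, lattice packing.
-/

set_option autoImplicit false

open Finset

namespace Pool.Agent.Lib.MP_e6b4b8_nt.NL

/-- One residue class in a window of length `T`. -/
theorem win (S : Finset ℕ) (a T q : ℕ) (_hq : 0 < q) (hS : S ⊆ Ico a (a + T))
    (h : ∀ t ∈ S, ∀ t' ∈ S, (q : ℤ) ∣ (t : ℤ) - t') : (S.card : ℝ) ≤ T / q + 1 := by
  have h1 : S.card ≤ (range (T / q + 1)).card := by
    refine card_le_card_of_injOn (fun t => (t - a) / q) (fun t ht => ?_) ?_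
    · have := mem_Ico.1 (hS ht)
      simp only [coe_range, Set.mem_Iio]
      exact Nat.lt_succ_of_le (Nat.div_le_div_right (by omega))
    · intro t ht t' ht' e
      have m1 := mem_Ico.1 (hS ht)
      have m2 := mem_Ico.1 (hS ht')
      have hd := h t ht t' ht'
      have hm : (t' - a) ≡ (t - a) [MOD q] := by
        rw [Nat.modEq_iff_dvd]
        have : ((t - a : ℕ) : ℤ) - ((t' - a : ℕ) : ℤ) = (t : ℤ) - t' := by
          push_cast [m1.1, m2.1]; ring
        rw [this]; exact hd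
      have e1 := Nat.div_add_mod (t - a) q
      have e2 := Nat.div_add_mod (t' - a) q
      simp only at e
      unfold Nat.ModEq at hm
      rw [e] at e1
      omega
  rw [card_range] at h1
  have h2 : (S.card : ℝ) ≤ ((T / q : ℕ) : ℝ) + 1 := by exact_mod_cast h1
  have h3 : ((T / q : ℕ) : ℝ) ≤ T / q := Nat.cast_div_le
  linarith

/-- A set covered by pieces of bounded size. -/
theorem cover {α κ : Type*} (S : Finset α) (Rs : Finset κ) (rel : κ → α → Prop) (g : κ → ℝ)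
    (h1 : ∀ t ∈ S, ∃ r ∈ Rs, rel r t)
    (h2 : ∀ r ∈ Rs, ∀ U : Finset α, U ⊆ S → (∀ t ∈ U, rel r t) → (U.card : ℝ) ≤ g r) :
    (S.card : ℝ) ≤ ∑ r ∈ Rs, g r := by
  classical
  have hsub : S ⊆ Rs.biUnion fun r => S.filter (rel r) := by
    intro t ht
    obtain ⟨r, hr, h⟩ := h1 t ht
    exact mem_biUnion.2 ⟨r, hr, mem_filter.2 ⟨ht, h⟩⟩
  have h3 : (S.card : ℝ) ≤ ∑ r ∈ Rs, ((S.filter (rel r)).card : ℝ) := by
    exact_mod_cast (card_le_card hsub).trans card_biUnion_le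
  exact h3.trans (sum_le_sum fun r hr =>
    h2 r hr _ (filter_subset _ _) fun t ht => (mem_filter.1 ht).2)

theorem win_cover {κ : Type*} (S : Finset ℕ) (a T q : ℕ) (hq : 0 < q) (hS : S ⊆ Ico a (a + T))
    (Rs : Finset κ) (rel : κ → ℕ → Prop) (h1 : ∀ t ∈ S, ∃ r ∈ Rs, rel r t)
    (h2 : ∀ r ∈ Rs, ∀ t ∈ S, ∀ t' ∈ S, rel r t → rel r t' → (q : ℤ) ∣ (t : ℤ) - t') :
    (S.card : ℝ) ≤ Rs.card * (T / q + 1) := by
  have := cover S Rs rel (fun _ => (T : ℝ) / q + 1) h1 fun r hr U hU hr' =>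
    win U a T q hq (hU.trans hS) fun t ht t' ht' =>
      h2 r hr t (hU ht) t' (hU ht') (hr' t ht) (hr' t' ht')
  rwa [sum_const, nsmul_eq_mul] at this

/-- The square roots of `-1` modulo `d`. -/
def roots (d : ℕ) : Finset ℕ := (range d).filter fun r => d ∣ r ^ 2 + 1

/-- The norm of a vector. -/
def nr (v : ℕ × ℕ) : ℕ := v.1 ^ 2 + v.2 ^ 2

theorem root_ex {A B d : ℕ} (h : Nat.Coprime A B) (hd : 0 < d) (hdiv : d ∣ A ^ 2 + B ^ 2) :
    ∃ r ∈ roots d, (d : ℤ) ∣ (A : ℤ) - r * B := by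
  have h1 : Nat.Coprime (A ^ 2 + B ^ 2) B := by
    rw [show A ^ 2 + B ^ 2 = A ^ 2 + B * B by ring, Nat.coprime_add_mul_right_left]
    exact h.pow_left 2
  have h2 : Nat.Coprime d B := Nat.Coprime.coprime_dvd_left hdiv h1
  obtain ⟨b, a, hab⟩ := Nat.isCoprime_iff_coprime.2 h2
  have hd' : (0 : ℤ) < d := by exact_mod_cast hd
  have hdiv' : (d : ℤ) ∣ (A : ℤ) ^ 2 + B ^ 2 := by exact_mod_cast hdiv
  obtain ⟨e, he⟩ := hdiv'
  have hn := Int.emod_nonneg (A * a) hd'.ne'
  have hl := Int.emod_lt_of_pos (A * a) hd'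
  obtain ⟨r, hr⟩ := Int.eq_ofNat_of_zero_le hn
  have hq := Int.emod_add_mul_ediv (A * a) d
  rw [hr] at hq hl
  set k := (A * a : ℤ) / d
  have hr' : (r : ℤ) = A * a - d * k := by linarith
  refine ⟨r, mem_filter.2 ⟨mem_range.2 (by exact_mod_cast hl), ?_⟩, ?_⟩
  · have : (d : ℤ) ∣ (r : ℤ) ^ 2 + 1 := by
      refine ⟨a ^ 2 * e + b * (1 + a * B) - 2 * A * a * k + d * k ^ 2, ?_⟩
      rw [hr']
      linear_combination a ^ 2 * he - (1 + a * B) * hab
    exact_mod_cast this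
  · refine ⟨A * b + k * B, ?_⟩
    rw [hr']
    linear_combination (-(A : ℤ)) * hab

theorem roots_sq {p : ℕ} (hp : p.Prime) (h2 : p ≠ 2) : (roots (p ^ 2)).card ≤ 2 := by
  rcases (roots (p ^ 2)).eq_empty_or_nonempty with h | ⟨r, hr⟩
  · simp [h]
  have hsub : roots (p ^ 2) ⊆ {r, p ^ 2 - r} := by
    intro s hs
    obtain ⟨r1, r2⟩ := mem_filter.1 hr
    obtain ⟨s1, s2⟩ := mem_filter.1 hs
    rw [mem_range] at r1 s1
    have r3 : (p : ℤ) ^ 2 ∣ (r : ℤ) ^ 2 + 1 := by exact_mod_cast r2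
    have s3 : (p : ℤ) ^ 2 ∣ (s : ℤ) ^ 2 + 1 := by exact_mod_cast s2
    have r4 : (r : ℤ) < (p : ℤ) ^ 2 := by exact_mod_cast r1
    have s4 : (s : ℤ) < (p : ℤ) ^ 2 := by exact_mod_cast s1
    have hp' : Prime (p : ℤ) := Nat.prime_iff_prime_int.1 hp
    have hprod : (p : ℤ) ^ 2 ∣ ((r : ℤ) + s) * (r - s) := by
      have := dvd_sub r3 s3
      rwa [show (r : ℤ) ^ 2 + 1 - (s ^ 2 + 1) = (r + s) * (r - s) by ring] at this
    have hpr : ¬ (p : ℤ) ∣ r := fun h => by
      have h3 : (p : ℤ) ∣ (r : ℤ) ^ 2 + 1 := (dvd_pow_self _ two_ne_zero).trans r3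
      have : (p : ℤ) ∣ 1 := (dvd_add_right (Dvd.dvd.pow h two_ne_zero)).1 h3
      exact hp'.not_dvd_one this
    rw [mem_insert, mem_singleton]
    by_cases hc : (p : ℤ) ∣ (r : ℤ) + s
    · right
      have hn : ¬ (p : ℤ) ∣ (r : ℤ) - s := fun h => by
        have h3 : (p : ℤ) ∣ 2 * r := by
          have := dvd_add hc h
          rwa [show (r : ℤ) + s + (r - s) = 2 * r by ring] at this
        rcases hp'.dvd_or_dvd h3 with h4 | h4
        · have : p ∣ 2 := by exact_mod_cast h4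
          exact h2 ((Nat.prime_dvd_prime_iff_eq hp Nat.prime_two).1 this)
        · exact hpr h4
      have h5 := hp'.pow_dvd_of_dvd_mul_right 2 hn hprod
      have hr0 : r ≠ 0 := fun h => hpr (by simp [h])
      have h6 : (p : ℤ) ^ 2 ∣ (r : ℤ) + s - p ^ 2 := dvd_sub h5 dvd_rfl
      have h7 := Int.eq_zero_of_abs_lt_dvd h6 (by
        rw [abs_lt]; constructor
        · have : (0 : ℤ) < r := by exact_mod_cast Nat.pos_of_ne_zero hr0
          have : (0 : ℤ) ≤ s := by positivity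
          linarith
        · linarith)
      have h8 : r + s = p ^ 2 := by
        have : (r : ℤ) + s = (p : ℤ) ^ 2 := by linarith
        exact_mod_cast this
      omega
    · left
      have h5 := hp'.pow_dvd_of_dvd_mul_left 2 hc hprod
      have h7 := Int.eq_zero_of_abs_lt_dvd h5 (by
        have : (0 : ℤ) ≤ r := by positivity
        have : (0 : ℤ) ≤ s := by positivity
        rw [abs_lt]; constructor <;> linarith)
      have : (s : ℤ) = r := by linarith
      exact_mod_cast this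
  exact (card_le_card hsub).trans card_le_two

/-- The square `[0, R] × [0, R]`. -/
def box (R : ℕ) : Finset (ℕ × ℕ) := range (R + 1) ×ˢ range (R + 1)

theorem close_of_div {a b s : ℕ} (hs : 0 < s) (h : a / s = b / s) :
    ((a : ℤ) - b) ^ 2 ≤ ((s : ℤ) - 1) ^ 2 := by
  have e1 := Nat.div_add_mod a s
  have e2 := Nat.div_add_mod b s
  have l1 := Nat.mod_lt a hs
  have l2 := Nat.mod_lt b hs
  rw [h] at e1
  generalize s * (b / s) = m at e1 e2
  refine sq_le_sq' ?_ ?_ <;> omega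

/-- Packing bound for the lattice `A ≡ r B` modulo `d`. -/
theorem lat {d r R : ℕ} (hd : 0 < d) (hr : d ∣ r ^ 2 + 1) (hR : d ≤ 2 * R ^ 2)
    (S : Finset (ℕ × ℕ)) (hS : S ⊆ box R) (h : ∀ v ∈ S, (d : ℤ) ∣ (v.1 : ℤ) - r * v.2) :
    (S.card : ℝ) ≤ 12 * R ^ 2 / d := by
  set s := Nat.sqrt (d / 3) + 1 with hs
  have hs0 : 0 < s := Nat.succ_pos _
  have hs1 : Nat.sqrt (d / 3) * Nat.sqrt (d / 3) ≤ d / 3 := Nat.sqrt_le _
  have hs2 : d / 3 < s * s := Nat.lt_succ_sqrt _
  have hsR : s ≤ R := by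
    have : Nat.sqrt (d / 3) < R := by
      rw [Nat.sqrt_lt']; omega
    omega
  have h1 : S.card ≤ (range (R / s + 1) ×ˢ range (R / s + 1)).card := by
    refine card_le_card_of_injOn (fun v => (v.1 / s, v.2 / s)) (fun v hv => ?_) ?_
    · have := mem_product.1 (hS hv)
      simp only [mem_range] at this
      simp only [coe_product, coe_range, Set.mem_prod, Set.mem_Iio]
      exact ⟨Nat.lt_succ_of_le (Nat.div_le_div_right (by omega)),
        Nat.lt_succ_of_le (Nat.div_le_div_right (by omega))⟩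
    · intro v hv w hw e
      simp only [Prod.mk.injEq] at e
      have c1 := close_of_div hs0 e.1
      have c2 := close_of_div hs0 e.2
      obtain ⟨k1, hk1⟩ := h v hv
      obtain ⟨k2, hk2⟩ := h w hw
      have hr' : (d : ℤ) ∣ (r : ℤ) ^ 2 + 1 := by exact_mod_cast hr
      obtain ⟨e', he'⟩ := hr'
      set a : ℤ := (v.1 : ℤ) - w.1 with ha
      set b : ℤ := (v.2 : ℤ) - w.2 with hb
      have hab : a = r * b + d * (k1 - k2) := by rw [ha, hb]; linear_combination hk1 - hk2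
      have hdv : (d : ℤ) ∣ a ^ 2 + b ^ 2 :=
        ⟨e' * b ^ 2 + 2 * r * b * (k1 - k2) + d * (k1 - k2) ^ 2, by
          rw [hab]; linear_combination b ^ 2 * he'⟩
      have hlt : 2 * ((s : ℤ) - 1) ^ 2 < d := by
        have : 2 * (Nat.sqrt (d / 3) * Nat.sqrt (d / 3)) < d := by omega
        have h' : (2 : ℤ) * (Nat.sqrt (d / 3) * Nat.sqrt (d / 3)) < d := by exact_mod_cast this
        rw [hs]; push_cast; nlinarith
      have h0 := Int.eq_zero_of_abs_lt_dvd hdv (by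
        rw [abs_of_nonneg (by positivity)]; linarith)
      have ha0 : a = 0 := by nlinarith [sq_nonneg a, sq_nonneg b]
      have hb0 : b = 0 := by nlinarith [sq_nonneg a, sq_nonneg b]
      ext
      · have : (v.1 : ℤ) = w.1 := by linarith
        exact_mod_cast this
      · have : (v.2 : ℤ) = w.2 := by linarith
        exact_mod_cast this
  rw [card_product, card_range] at h1
  have h2 : (S.card : ℝ) ≤ (((R / s : ℕ) : ℝ) + 1) * (((R / s : ℕ) : ℝ) + 1) := by
    exact_mod_cast h1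
  have h3 : ((R / s : ℕ) : ℝ) ≤ R / s := Nat.cast_div_le
  have hs0' : (0 : ℝ) < s := by exact_mod_cast hs0
  have h4 : (1 : ℝ) ≤ R / s := by
    rw [le_div_iff₀ hs0', one_mul]; exact_mod_cast hsR
  have h5 : (d : ℝ) ≤ 3 * (s * s) := by
    have : d ≤ 3 * (s * s) := by omega
    exact_mod_cast this
  have hd' : (0 : ℝ) < d := by exact_mod_cast hd
  have h6 : (S.card : ℝ) ≤ (2 * (R / s)) * (2 * (R / s)) := by
    refine h2.trans (mul_le_mul (by linarith) (by linarith) (by positivity) (by positivity))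
  refine h6.trans ?_
  rw [le_div_iff₀ hd']
  have h7 : (2 * ((R : ℝ) / s)) * (2 * (R / s)) * (3 * (s * s)) = 12 * R ^ 2 := by
    field_simp; ring
  rw [← h7]
  exact mul_le_mul_of_nonneg_left h5 (by positivity)

/-- Primitive vectors in a box whose norm is divisible by `d`. -/
theorem cnt_dvd {d R : ℕ} (hd : 0 < d) (hR : d ≤ 2 * R ^ 2) (S : Finset (ℕ × ℕ))
    (hS : S ⊆ box R) (h : ∀ v ∈ S, Nat.Coprime v.1 v.2 ∧ d ∣ nr v) :
    (S.card : ℝ) ≤ (roots d).card * (12 * R ^ 2 / d) := by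
  have := cover S (roots d) (fun r v => (d : ℤ) ∣ (v.1 : ℤ) - r * v.2)
    (fun _ => 12 * (R : ℝ) ^ 2 / d) (fun v hv => root_ex (h v hv).1 hd (h v hv).2)
    fun r hr U hU hr' => lat hd (mem_filter.1 hr).2 hR U (hU.trans hS) hr'
  rwa [sum_const, nsmul_eq_mul] at this

end Pool.Agent.Lib.MP_e6b4b8_nt.NL
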