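import Pool.Agent.Lib.MP_e6b4b8_nt.NL.Res

/-!
From good triangles to integers `n` with `μ (n^2+1) = 1`.
-/

set_option autoImplicit false

open Finset

namespace Pool.Agent.Lib.MP_e6b4b8_nt.NL

/-- The integers counted in the theorem. -/
def plus (X : ℕ) : Finset ℕ :=
  (range (X + 1)).filter fun n => ArithmeticFunction.moebius (n ^ 2 + 1) = 1

theorem same_vec {A B A' B' C D C' D' δ : ℤ} (hA : 0 < A) (hB : 0 < B) (hC : 0 < C) (hD : 0 < D)
    (hδ : δ ^ 2 = 1) (h1 : A * B' - B * A' = δ) (h2 : C * D' - D * C' = δ)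
    (h3 : A * A' + B * B' = C * C' + D * D') (h4 : A ^ 2 + B ^ 2 = C ^ 2 + D ^ 2) :
    A = C ∧ B = D := by
  set d := A ^ 2 + B ^ 2 with hd
  set b := A * A' + B * B' with hb
  have e1 : b * B + δ * A = d * B' := by rw [hb, hd, ← h1]; ring
  have e2 : b * D + δ * C = d * D' := by rw [h3, h4, ← h2]; ring
  have e3 : d ∣ A * D - C * B := ⟨δ * (B' * D - D' * B), by
    linear_combination δ * D * e1 - δ * B * e2 - (A * D - C * B) * hδ⟩
  have e4 : (A * D - C * B) ^ 2 + (A * C + B * D) ^ 2 = d ^ 2 := by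
    rw [sq d]; nth_rewrite 2 [h4]; rw [hd]; ring
  have hE : 0 < A * C + B * D := by positivity
  have hd0 : 0 < d := by rw [hd]; positivity
  have e5 := Int.eq_zero_of_abs_lt_dvd e3 (abs_lt_of_sq_lt_sq (by nlinarith) hd0.le)
  have e6 : A * C + B * D = d := by
    rw [e5] at e4
    exact (pow_left_inj₀ hE.le hd0.le two_ne_zero).1 (by linarith)
  have e7 : (A - C) ^ 2 + (B - D) ^ 2 = 0 := by linear_combination -hd - h4 - 2 * e6
  constructor <;> nlinarith [sq_nonneg (A - C), sq_nonneg (B - D)]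

theorem edge {ι : Type*} (G : Finset ι) (v w : ι → ℕ × ℕ) (hinj : Set.InjOn v (G : Set ι))
    (δ : ℤ) (hδ : δ ^ 2 = 1) (R X : ℕ) (hX : 2 * R ^ 2 ≤ X) (Q : ℝ) (hQ : 0 ≤ Q)
    (h : ∀ f ∈ G, 0 < (v f).1 ∧ 0 < (v f).2 ∧ v f ∈ box R ∧ w f ∈ box R ∧
      ((v f).1 : ℤ) * (w f).2 - (v f).2 * (w f).1 = δ ∧
      ((nr (v f) * nr (w f)).divisors.card : ℝ) ≤ Q ∧
      ArithmeticFunction.moebius (nr (v f) * nr (w f)) = 1) :
    (G.card : ℝ) ≤ (plus X).card * Q := by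
  have hl : ∀ f ∈ G, nr (v f) * nr (w f) = ((v f).1 * (w f).1 + (v f).2 * (w f).2) ^ 2 + 1 := by
    intro f hf
    have h1 := (h f hf).2.2.2.2.1
    have : ((nr (v f) * nr (w f) : ℕ) : ℤ) =
        ((((v f).1 * (w f).1 + (v f).2 * (w f).2) ^ 2 + 1 : ℕ) : ℤ) := by
      unfold nr; push_cast
      linear_combination hδ + (((v f).1 : ℤ) * (w f).2 - (v f).2 * (w f).1 + δ) * h1
    exact_mod_cast this
  have h1 := cover G (plus X) (fun n f => (v f).1 * (w f).1 + (v f).2 * (w f).2 = n) (fun _ => Q)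
    (fun f hf => by
      refine ⟨_, mem_filter.2 ⟨mem_range.2 ?_, ?_⟩, rfl⟩
      · have b1 := mem_product.1 (h f hf).2.2.1
        have b2 := mem_product.1 (h f hf).2.2.2.1
        simp only [mem_range, Nat.lt_succ_iff] at b1 b2
        have a1 := Nat.mul_le_mul b1.1 b2.1
        have a2 := Nat.mul_le_mul b1.2 b2.2
        rw [← sq] at a1 a2
        omega
      · rw [← hl f hf]; exact (h f hf).2.2.2.2.2.2)
    (fun n _ U hU hr => by
      rcases U.eq_empty_or_nonempty with rfl | ⟨f0, hf0⟩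
      · simpa using hQ
      have a1 : U.card ≤ (n ^ 2 + 1).divisors.card := by
        refine card_le_card_of_injOn (fun f => nr (v f)) (fun f hf => ?_) fun f hf g hg e => ?_
        · refine mem_coe.2 (Nat.mem_divisors.2 ⟨?_, by positivity⟩)
          rw [← hr f hf, ← hl f (hU hf)]
          exact dvd_mul_right _ _
        · obtain ⟨p1, p2, -, -, p3, -⟩ := h f (hU hf)
          obtain ⟨q1, q2, -, -, q3, -⟩ := h g (hU hg)
          have := same_vec (by exact_mod_cast p1) (by exact_mod_cast p2) (by exact_mod_cast q1)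
            (by exact_mod_cast q2) hδ p3 q3 (by exact_mod_cast (hr f hf).trans (hr g hg).symm)
            (by unfold nr at e; exact_mod_cast e)
          exact hinj (hU hf) (hU hg) (Prod.ext (by exact_mod_cast this.1) (by exact_mod_cast this.2))
      have a2 := (h f0 (hU hf0)).2.2.2.2.2.1
      rw [hl f0 (hU hf0), hr f0 hf0] at a2
      exact le_trans (by exact_mod_cast a1) a2)
  rwa [sum_const, nsmul_eq_mul] at h1

theorem step {α : Type*} {F S : Finset α} (hS : S ⊆ F) (p : α → Prop) {β : ℝ}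
    (h : ∀ U : Finset α, U ⊆ F → (∀ f ∈ U, ¬ p f) → (U.card : ℝ) ≤ β) :
    ∃ S' : Finset α, S' ⊆ S ∧ (∀ f ∈ S', p f) ∧ (S.card : ℝ) ≤ S'.card + β := by
  classical
  refine ⟨S.filter p, filter_subset _ _, fun f hf => (mem_filter.1 hf).2, ?_⟩
  have h0 := card_filter_add_card_filter_not (s := S) p
  have h1 := h (S.filter fun f => ¬ p f) ((filter_subset _ _).trans hS)
    fun f hf => (mem_filter.1 hf).2
  have h2 : ((S.filter p).card : ℝ) + ((S.filter fun f => ¬ p f).card : ℝ) = S.card := by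
    exact_mod_cast h0
  linarith

/-- The properties of a good triangle. -/
def Good (M : ℕ) (K : ℝ) (f : (ℕ × ℕ) × ℕ) : Prop :=
  (Squarefree (nr (V M 1 0 f)) ∧ Squarefree (nr (V M 1 1 f)) ∧ Squarefree (nr (V M 2 1 f))) ∧
  (((nr (V M 1 0 f)).divisors.card : ℝ) ≤ K ∧ ((nr (V M 1 1 f)).divisors.card : ℝ) ≤ K ∧
    ((nr (V M 2 1 f)).divisors.card : ℝ) ≤ K) ∧ ¬ ∃ q, q.Prime ∧ Two M q f

theorem i1 : Idx 1 0 := Or.inl ⟨rfl, rfl⟩
theorem i2 : Idx 1 1 := Or.inr (Or.inl ⟨rfl, rfl⟩)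
theorem i3 : Idx 2 1 := Or.inr (Or.inr ⟨rfl, rfl⟩)

theorem many_good {I M L T P R : ℕ} {K : ℝ} (hI : 1000 ≤ I) (hM : 0 < M) (hL : 6400 * M ^ 8 < L)
    (hT : 4800 ≤ T) (hTL : T ≤ L) (hP : 0 < P) (hR : R = 10 * (M * (M * L) * T))
    (hM1 : ∀ q : ℕ, q.Prime → q ≤ I → q ^ 2 ∣ M) (hM2 : ∀ q : ℕ, q.Prime → I < q → ¬ q ∣ M)
    (hK : 0 < K)
    (h1 : (((Icc 1 P).filter Nat.Prime).card : ℝ) ≤ T / 200)
    (h2 : 24 * (R : ℝ) ^ 2 / P ≤ L ^ 2 * T / 100)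
    (h3 : ∑ p ∈ (Icc 1 L).filter Nat.Prime, (1 : ℝ) / p ≤ T / 2400)
    (h4 : 432 * (R : ℝ) ^ 2 * (Nat.log 2 (2 * R) + 1) / K ≤ L ^ 2 * T / 100) :
    ∃ G : Finset ((ℕ × ℕ) × ℕ), G ⊆ fam M L T ∧ (∀ f ∈ G, Good M K f) ∧
      (L : ℝ) ^ 2 * T / 2 ≤ G.card := by
  have hL0 : 0 < L := lt_of_le_of_lt (Nat.zero_le _) hL
  have hT0 : 0 < T := lt_of_lt_of_le (by norm_num) hT
  have hI2 : 2 ≤ I := le_trans (by norm_num) hI
  have hI' : (1000 : ℝ) ≤ I := by exact_mod_cast hI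
  have hT' : (4800 : ℝ) ≤ T := by exact_mod_cast hT
  have hL2 : (0 : ℝ) ≤ (L : ℝ) ^ 2 := by positivity
  have hLT : (0 : ℝ) ≤ (L : ℝ) ^ 2 * T := by positivity
  have hdiv : (L : ℝ) ^ 2 * T / I ≤ (L : ℝ) ^ 2 * T / 1000 :=
    div_le_div_of_nonneg_left hLT (by norm_num) hI'
  have bs : ∀ i j, Idx i j → ∀ U : Finset ((ℕ × ℕ) × ℕ), U ⊆ fam M L T →
      (∀ f ∈ U, ¬ Squarefree (nr (V M i j f))) → (U.card : ℝ) ≤ L ^ 2 * T / 40 := by
    intro i j hij U hU h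
    have a := bad_sq hI2 hM hL0 hT0 hP hR hM1 hM2 hij U hU h
    have b := mul_le_mul_of_nonneg_left h1 hL2
    have c : 2 * (L : ℝ) ^ 2 * T / I = 2 * (L ^ 2 * T / I) := by ring
    linarith
  have bt : ∀ i j, Idx i j → ∀ U : Finset ((ℕ × ℕ) × ℕ), U ⊆ fam M L T →
      (∀ f ∈ U, ¬ ((nr (V M i j f)).divisors.card : ℝ) ≤ K) → (U.card : ℝ) ≤ L ^ 2 * T / 100 :=
    fun i j hij U hU h => (bad_tau hM hL0 hT0 hR hij hK U hU fun f hf => not_le.1 (h f hf)).trans h4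
  have bc : ∀ U : Finset ((ℕ × ℕ) × ℕ), U ⊆ fam M L T →
      (∀ f ∈ U, ¬ ¬ ∃ q, q.Prime ∧ Two M q f) → (U.card : ℝ) ≤ L ^ 2 * T / 10 := by
    intro U hU h
    have a := bad_cop hI2 hM hL hTL hM1 hM2 U hU fun f hf => not_not.1 (h f hf)
    have b := mul_le_mul_of_nonneg_left h3 hL2
    have b' := mul_le_mul_of_nonneg_left hT' hL2
    have c : 48 * (L : ℝ) ^ 2 * T / I = 48 * (L ^ 2 * T / I) := by ring
    linarith
  obtain ⟨S1, s1, p1, c1⟩ := step (Subset.refl _) _ (bs 1 0 i1)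
  obtain ⟨S2, s2, p2, c2⟩ := step s1 _ (bs 1 1 i2)
  obtain ⟨S3, s3, p3, c3⟩ := step (s2.trans s1) _ (bs 2 1 i3)
  obtain ⟨S4, s4, p4, c4⟩ := step (s3.trans (s2.trans s1)) _ (bt 1 0 i1)
  obtain ⟨S5, s5, p5, c5⟩ := step (s4.trans (s3.trans (s2.trans s1))) _ (bt 1 1 i2)
  obtain ⟨S6, s6, p6, c6⟩ := step (s5.trans (s4.trans (s3.trans (s2.trans s1)))) _ (bt 2 1 i3)
  obtain ⟨G, s7, p7, c7⟩ :=
    step (s6.trans (s5.trans (s4.trans (s3.trans (s2.trans s1))))) _ bc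
  have t5 := s7.trans s6
  have t4 := t5.trans s5
  have t3 := t4.trans s4
  have t2 := t3.trans s3
  have t1 := t2.trans s2
  have hfam : ((fam M L T).card : ℝ) = (base M L).card * T := by
    unfold fam; rw [card_product, Nat.card_Ico, Nat.add_sub_cancel]; push_cast; ring
  have hb := mul_le_mul_of_nonneg_right (card_base (lt_of_lt_of_le two_pos hI2) hL0 hM1)
    (show (0 : ℝ) ≤ T by positivity)
  have hb' : ((L : ℝ) ^ 2 - 9 * L ^ 2 / I) * T = L ^ 2 * T - 9 * (L ^ 2 * T / I) := by ring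
  refine ⟨G, t1.trans s1, fun f hf => ⟨⟨p1 f (t1 hf), p2 f (t2 hf), p3 f (t3 hf)⟩,
    ⟨p4 f (t4 hf), p5 f (t5 hf), p6 f (s7 hf)⟩, p7 f hf⟩, ?_⟩
  linarith

theorem Good.cop {M : ℕ} {K : ℝ} {f : (ℕ × ℕ) × ℕ} (h : Good M K f) :
    Nat.Coprime (nr (V M 1 0 f)) (nr (V M 1 1 f)) ∧
      Nat.Coprime (nr (V M 1 0 f)) (nr (V M 2 1 f)) ∧
      Nat.Coprime (nr (V M 1 1 f)) (nr (V M 2 1 f)) := by
  refine ⟨?_, ?_, ?_⟩
  · by_contra hc
    obtain ⟨q, hq, q1, q2⟩ := Nat.Prime.not_coprime_iff_dvd.1 hc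
    exact h.2.2 ⟨q, hq, Or.inl ⟨q1, q2⟩⟩
  · by_contra hc
    obtain ⟨q, hq, q1, q2⟩ := Nat.Prime.not_coprime_iff_dvd.1 hc
    exact h.2.2 ⟨q, hq, Or.inr (Or.inl ⟨q1, q2⟩)⟩
  · by_contra hc
    obtain ⟨q, hq, q1, q2⟩ := Nat.Prime.not_coprime_iff_dvd.1 hc
    exact h.2.2 ⟨q, hq, Or.inr (Or.inr ⟨q1, q2⟩)⟩

theorem parity {a b c : ℕ} (ha : Squarefree a) (hb : Squarefree b) (hc : Squarefree c)
    (hab : Nat.Coprime a b) (hac : Nat.Coprime a c) (hbc : Nat.Coprime b c)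
    (m1 : ¬ ArithmeticFunction.moebius (a * b) = 1)
    (m2 : ¬ ArithmeticFunction.moebius (a * c) = 1) : ArithmeticFunction.moebius (b * c) = 1 := by
  rw [ArithmeticFunction.isMultiplicative_moebius.map_mul_of_coprime hab] at m1
  rw [ArithmeticFunction.isMultiplicative_moebius.map_mul_of_coprime hac] at m2
  rw [ArithmeticFunction.isMultiplicative_moebius.map_mul_of_coprime hbc]
  have n1 := ArithmeticFunction.moebius_ne_zero_iff_eq_or.1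
    (ArithmeticFunction.moebius_ne_zero_iff_squarefree.2 ha)
  have n2 := ArithmeticFunction.moebius_ne_zero_iff_eq_or.1
    (ArithmeticFunction.moebius_ne_zero_iff_squarefree.2 hb)
  have n3 := ArithmeticFunction.moebius_ne_zero_iff_eq_or.1
    (ArithmeticFunction.moebius_ne_zero_iff_squarefree.2 hc)
  rcases n1 with n1 | n1 <;> rcases n2 with n2 | n2 <;> rcases n3 with n3 | n3 <;>
    rw [n1, n2] at m1 <;> rw [n1, n3] at m2 <;> rw [n2, n3] <;> omega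

theorem ed {M L T R X : ℕ} {K : ℝ} (hM : 0 < M) (hL : 0 < L) (hT : 0 < T)
    (hR : R = 10 * (M * (M * L) * T)) (hK : 0 < K) (hX : 2 * R ^ 2 ≤ X) {i j k l : ℕ} (δ : ℤ)
    (hij : Idx i j) (hkl : Idx k l) (hδ : δ ^ 2 = 1) (hδ' : (j * k : ℤ) - i * l = δ)
    (U : Finset ((ℕ × ℕ) × ℕ)) (hU : U ⊆ fam M L T)
    (hf : ∀ f ∈ U, Nat.Coprime (nr (V M i j f)) (nr (V M k l f)) ∧
        ((nr (V M i j f)).divisors.card : ℝ) ≤ K ∧ ((nr (V M k l f)).divisors.card : ℝ) ≤ K)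
    (hμ : ∀ f ∈ U, ArithmeticFunction.moebius (nr (V M i j f) * nr (V M k l f)) = 1) :
    (U.card : ℝ) ≤ (plus X).card * K ^ 2 := by
  refine edge U (V M i j) (V M k l) ((V_inj hM hL hT hij).mono (coe_subset.2 hU))
    δ hδ R X hX _ (by positivity) fun f hfU => ?_
  have m := hU hfU
  obtain ⟨a1, a2, a3⟩ := V_bd hM hL hT hij m
  obtain ⟨-, -, a4⟩ := V_bd hM hL hT hkl m
  obtain ⟨b1, b2, b3⟩ := hf f hfU
  rw [← hR] at a3 a4
  refine ⟨lt_of_le_of_lt (Nat.zero_le _) a1, a2, a3, a4, ?_, ?_, hμ f hfU⟩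
  · have hd := det hM m
    unfold V; push_cast
    linear_combination ((j * k : ℤ) - i * l) * hd + hδ'
  · rw [b1.card_divisors_mul, sq]; push_cast
    exact mul_le_mul b2 b3 (by positivity) hK.le

theorem good_le {M L T R X : ℕ} {K : ℝ} (hM : 0 < M) (hL : 0 < L) (hT : 0 < T)
    (hR : R = 10 * (M * (M * L) * T)) (hK : 0 < K) (hX : 2 * R ^ 2 ≤ X)
    (G : Finset ((ℕ × ℕ) × ℕ)) (hG : G ⊆ fam M L T) (h : ∀ f ∈ G, Good M K f) :
    (G.card : ℝ) ≤ 3 * ((plus X).card * K ^ 2) := by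
  obtain ⟨G1, u1, r1, d1⟩ := step (Subset.refl G)
    (fun f => ¬ ArithmeticFunction.moebius (nr (V M 1 0 f) * nr (V M 1 1 f)) = 1)
    fun U hU hμ => ed hM hL hT hR hK hX (-1) i1 i2 (by norm_num) (by norm_num) U (hU.trans hG)
      (fun f hf => ⟨(h f (hU hf)).cop.1, (h f (hU hf)).2.1.1, (h f (hU hf)).2.1.2.1⟩)
      fun f hf => not_not.1 (hμ f hf)
  obtain ⟨G2, u2, r2, d2⟩ := step u1
    (fun f => ¬ ArithmeticFunction.moebius (nr (V M 1 0 f) * nr (V M 2 1 f)) = 1)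
    fun U hU hμ => ed hM hL hT hR hK hX (-1) i1 i3 (by norm_num) (by norm_num) U (hU.trans hG)
      (fun f hf => ⟨(h f (hU hf)).cop.2.1, (h f (hU hf)).2.1.1, (h f (hU hf)).2.1.2.2⟩)
      fun f hf => not_not.1 (hμ f hf)
  have hU := u2.trans u1
  have d3 := ed hM hL hT hR hK hX 1 i2 i3 (by norm_num) (by norm_num) G2 (hU.trans hG)
    (fun f hf => ⟨(h f (hU hf)).cop.2.2, (h f (hU hf)).2.1.2.1, (h f (hU hf)).2.1.2.2⟩)
    fun f hf => parity (h f (hU hf)).1.1 (h f (hU hf)).1.2.1 (h f (hU hf)).1.2.2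
      (h f (hU hf)).cop.1 (h f (hU hf)).cop.2.1 (h f (hU hf)).cop.2.2 (r1 f (u2 hf)) (r2 f hf)
  linarith

end Pool.Agent.Lib.MP_e6b4b8_nt.NL
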