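import Pool.Agent.Lib.MP_e6b4b8_nt.NL.Sums

/-!
The family of Farey triangles `g, g + a, 2 g + a` with `a ≡ (1,0)`, `g ≡ (0,1)` modulo `M`.
-/

set_option autoImplicit false

open Finset

namespace Pool.Agent.Lib.MP_e6b4b8_nt.NL

def xx (M : ℕ) (p : ℕ × ℕ) : ℕ := 1 + M * p.1

def yy (M : ℕ) (p : ℕ × ℕ) : ℕ := M * p.2

def Spec (M : ℕ) (p q : ℕ × ℕ) : Prop :=
  xx M p * q.2 = yy M p * q.1 + 1 ∧ q.1 < M * xx M p ∧ M ∣ q.1

noncomputable def be (M : ℕ) (p : ℕ × ℕ) : ℕ × ℕ := Classical.epsilon (Spec M p)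

theorem be_spec {M : ℕ} {p : ℕ × ℕ} (hM : 0 < M) (h : Nat.Coprime (xx M p) (yy M p)) :
    Spec M p (be M p) := by
  refine Classical.epsilon_spec (p := Spec M p) ?_
  have h1 : Nat.Coprime (xx M p) M := by
    unfold xx
    rw [Nat.coprime_add_mul_left_left]; simp
  have h2 : Nat.Coprime (xx M p) (yy M p * M) := Nat.Coprime.mul_right h h1
  obtain ⟨a, b, hab⟩ := Nat.isCoprime_iff_coprime.2 h2
  have hx : (0 : ℤ) < xx M p := by unfold xx; positivity
  obtain ⟨z, hz⟩ := Int.eq_ofNat_of_zero_le (Int.emod_nonneg (-b) hx.ne')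
  have hl := Int.emod_lt_of_pos (-b) hx
  have hq := Int.emod_add_mul_ediv (-b) (xx M p)
  rw [hz] at hl hq
  have hd : xx M p ∣ yy M p * (M * z) + 1 := by
    have : (xx M p : ℤ) ∣ yy M p * (M * z) + 1 := by
      refine ⟨a - yy M p * M * (-b / xx M p), ?_⟩
      push_cast at hab
      linear_combination (yy M p * M : ℤ) * hq - hab
    exact_mod_cast this
  obtain ⟨w, hw⟩ := hd
  refine ⟨(M * z, w), hw.symm, ?_, dvd_mul_right _ _⟩
  have : z < xx M p := by exact_mod_cast hl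
  exact Nat.mul_lt_mul_of_pos_left this hM

noncomputable def CC (M : ℕ) (f : (ℕ × ℕ) × ℕ) : ℕ := (be M f.1).1 + M * f.2 * xx M f.1

noncomputable def DD (M : ℕ) (f : (ℕ × ℕ) × ℕ) : ℕ := (be M f.1).2 + M * f.2 * yy M f.1

noncomputable def V (M i j : ℕ) (f : (ℕ × ℕ) × ℕ) : ℕ × ℕ :=
  (i * CC M f + j * xx M f.1, i * DD M f + j * yy M f.1)

def sqr (L : ℕ) : Finset (ℕ × ℕ) := Ico L (L + L) ×ˢ Ico L (L + L)

def base (M L : ℕ) : Finset (ℕ × ℕ) := (sqr L).filter fun p => Nat.Coprime (xx M p) (yy M p)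

def fam (M L T : ℕ) : Finset ((ℕ × ℕ) × ℕ) := base M L ×ˢ Ico T (T + T)

/-- The three vertices. -/
def Idx (i j : ℕ) : Prop := (i = 1 ∧ j = 0) ∨ (i = 1 ∧ j = 1) ∨ (i = 2 ∧ j = 1)

theorem card_sqr (L : ℕ) : ((sqr L).card : ℝ) = L ^ 2 := by
  unfold sqr; rw [card_product, Nat.card_Ico]; simp [sq]

theorem card_base_le (M L : ℕ) : ((base M L).card : ℝ) ≤ L ^ 2 := by
  rw [← card_sqr]; exact_mod_cast card_filter_le _ _

theorem xy_bd {M L : ℕ} (hM : 0 < M) {p : ℕ × ℕ} (hp : p ∈ sqr L) :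
    M * L < xx M p ∧ xx M p ≤ 2 * (M * L) ∧ M * L ≤ yy M p ∧ yy M p ≤ 2 * (M * L) := by
  obtain ⟨h1, h2⟩ := mem_product.1 hp
  rw [mem_Ico] at h1 h2
  have a1 := Nat.mul_le_mul_left M h1.1
  have a2 := Nat.mul_le_mul_left M h2.1
  have a3 := Nat.mul_le_mul_left M (Nat.succ_le_of_lt h1.2)
  have a4 := Nat.mul_le_mul_left M h2.2.le
  rw [Nat.mul_succ, Nat.mul_add] at a3
  rw [Nat.mul_add] at a4
  unfold xx yy
  omega

theorem det {M L T : ℕ} (hM : 0 < M) {f : (ℕ × ℕ) × ℕ} (hf : f ∈ fam M L T) :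
    (xx M f.1 : ℤ) * DD M f - yy M f.1 * CC M f = 1 := by
  have h := (be_spec hM (mem_filter.1 (mem_product.1 hf).1).2).1
  have h' : (xx M f.1 : ℤ) * (be M f.1).2 = yy M f.1 * (be M f.1).1 + 1 := by exact_mod_cast h
  unfold CC DD
  push_cast
  linear_combination h'

theorem CD_bd {M L T : ℕ} (hM : 0 < M) (hL : 0 < L) (_hT : 0 < T) {f : (ℕ × ℕ) × ℕ}
    (hf : f ∈ fam M L T) : xx M f.1 ≤ CC M f ∧ CC M f ≤ 4 * (M * (M * L) * T) ∧
      yy M f.1 ≤ DD M f ∧ DD M f ≤ 4 * (M * (M * L) * T) := by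
  obtain ⟨hp, ht⟩ := mem_product.1 hf
  obtain ⟨hp1, hp2⟩ := mem_filter.1 hp
  obtain ⟨s1, s2, -⟩ := be_spec hM hp2
  obtain ⟨b1, b2, b3, b4⟩ := xy_bd hM hp1
  rw [mem_Ico] at ht
  have hML : 0 < M * L := Nat.mul_pos hM hL
  have hMt : 1 ≤ M * f.2 := Nat.mul_pos hM (by omega)
  have hw : (be M f.1).2 ≤ M * yy M f.1 := by
    refine Nat.le_of_mul_le_mul_left (c := xx M f.1) ?_ (by omega)
    have := Nat.mul_le_mul_left (yy M f.1) (Nat.succ_le_of_lt s2)
    rw [Nat.mul_succ] at this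
    have e : yy M f.1 * (M * xx M f.1) = xx M f.1 * (M * yy M f.1) := by ring
    omega
  have key : ∀ z : ℕ, z ≤ 2 * (M * L) → M * z + M * f.2 * z ≤ 4 * (M * (M * L) * T) := by
    intro z hz
    calc M * z + M * f.2 * z = M * z * (f.2 + 1) := by ring
      _ ≤ M * (2 * (M * L)) * (T + T) :=
        Nat.mul_le_mul (Nat.mul_le_mul_left _ hz) (by omega)
      _ = 4 * (M * (M * L) * T) := by ring
  have k1 := key _ b2
  have k2 := key _ b4
  have l1 := Nat.mul_le_mul_right (xx M f.1) hMt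
  have l2 := Nat.mul_le_mul_right (yy M f.1) hMt
  unfold CC DD
  omega

theorem V_bd {M L T i j : ℕ} (hM : 0 < M) (hL : 0 < L) (hT : 0 < T) (hij : Idx i j)
    {f : (ℕ × ℕ) × ℕ} (hf : f ∈ fam M L T) : M * L < (V M i j f).1 ∧ 0 < (V M i j f).2 ∧
      V M i j f ∈ box (10 * (M * (M * L) * T)) := by
  obtain ⟨c1, c2, c3, c4⟩ := CD_bd hM hL hT hf
  obtain ⟨b1, b2, b3, b4⟩ := xy_bd hM (mem_filter.1 (mem_product.1 hf).1).1
  have hML : 0 < M * L := Nat.mul_pos hM hL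
  have h1 : M * L ≤ M * (M * L) * T :=
    (Nat.le_mul_of_pos_left _ hM).trans (Nat.le_mul_of_pos_right _ hT)
  unfold box V
  simp only [mem_product, mem_range]
  rcases hij with ⟨rfl, rfl⟩ | ⟨rfl, rfl⟩ | ⟨rfl, rfl⟩ <;> omega

theorem cop_of {A B : ℕ} (a b : ℤ) (h : a * A + b * B = 1) : Nat.Coprime A B :=
  Nat.isCoprime_iff_coprime.1 ⟨a, b, h⟩

theorem V_cop {M L T i j : ℕ} (hM : 0 < M) (hij : Idx i j) {f : (ℕ × ℕ) × ℕ}
    (hf : f ∈ fam M L T) : Nat.Coprime (V M i j f).1 (V M i j f).2 := by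
  have h := det hM hf
  unfold V
  rcases hij with ⟨rfl, rfl⟩ | ⟨rfl, rfl⟩ | ⟨rfl, rfl⟩
  · exact cop_of (-yy M f.1) (xx M f.1) (by push_cast; linear_combination h)
  · exact cop_of (-yy M f.1) (xx M f.1) (by push_cast; linear_combination h)
  · exact cop_of (DD M f) (-CC M f) (by push_cast; linear_combination h)

theorem V_det {M L T : ℕ} (hM : 0 < M) (i j : ℕ) {f : (ℕ × ℕ) × ℕ} (hf : f ∈ fam M L T) :
    (xx M f.1 : ℤ) * (V M i j f).2 - yy M f.1 * (V M i j f).1 = i := by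
  have h := det hM hf
  unfold V
  push_cast
  linear_combination (i : ℤ) * h

theorem V_inj {M L T i j : ℕ} (hM : 0 < M) (hL : 0 < L) (hT : 0 < T) (hij : Idx i j) :
    Set.InjOn (V M i j) (fam M L T : Set ((ℕ × ℕ) × ℕ)) := by
  intro f hf g hg e
  have d1 := V_det hM i j hf
  have d2 := V_det hM i j hg
  obtain ⟨l1, l2, -⟩ := V_bd hM hL hT hij hf
  have hc := Nat.isCoprime_iff_coprime.2 (V_cop hM hij hf)
  obtain ⟨b1, b2, -⟩ := xy_bd hM (mem_filter.1 (mem_product.1 hf).1).1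
  obtain ⟨c1, c2, -⟩ := xy_bd hM (mem_filter.1 (mem_product.1 hg).1).1
  rw [← e] at d2
  have h1 : ((V M i j f).1 : ℤ) ∣ ((xx M f.1 : ℤ) - xx M g.1) * (V M i j f).2 :=
    ⟨(yy M f.1 : ℤ) - yy M g.1, by linear_combination d1 - d2⟩
  have h2 := Int.eq_zero_of_abs_lt_dvd (hc.dvd_of_dvd_mul_right h1) (by rw [abs_lt]; omega)
  have hx : xx M f.1 = xx M g.1 := by omega
  have hy : yy M f.1 = yy M g.1 := by
    have h3 : ((yy M f.1 : ℤ) - yy M g.1) * (V M i j f).1 = 0 := by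
      rw [hx] at d1; linear_combination d2 - d1
    rcases mul_eq_zero.1 h3 with h | h <;> omega
  have hp : f.1 = g.1 := by
    unfold xx at hx
    unfold yy at hy
    exact Prod.ext (Nat.eq_of_mul_eq_mul_left hM (by omega)) (Nat.eq_of_mul_eq_mul_left hM hy)
  have h4 := congrArg Prod.fst e
  unfold V CC at h4
  simp only [hp] at h4
  have hi : 0 < i := by rcases hij with ⟨rfl, -⟩ | ⟨rfl, -⟩ | ⟨rfl, -⟩ <;> omega
  have h5 := Nat.eq_of_mul_eq_mul_left hi (Nat.add_right_cancel h4)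
  have h6 := Nat.eq_of_mul_eq_mul_right (by omega) (Nat.add_left_cancel h5)
  exact Prod.ext hp (Nat.eq_of_mul_eq_mul_left hM h6)

theorem nr_mod {M L T : ℕ} (hM : 0 < M) (i j : ℕ) {f : (ℕ × ℕ) × ℕ} (hf : f ∈ fam M L T) :
    (M : ℤ) ∣ (nr (V M i j f) : ℤ) - (i ^ 2 + j ^ 2) := by
  have h := det hM hf
  obtain ⟨c, hc⟩ := (be_spec hM (mem_filter.1 (mem_product.1 hf).1).2).2.2
  have h1 : (M : ℤ) ∣ CC M f := by
    unfold CC; rw [hc]; push_cast
    exact ⟨c + f.2 * xx M f.1, by ring⟩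
  have h2 : (M : ℤ) ∣ (DD M f : ℤ) - 1 := by
    unfold xx yy at h
    push_cast at h
    exact ⟨f.1.2 * CC M f - f.1.1 * DD M f, by linear_combination h⟩
  obtain ⟨a, ha⟩ := h1
  obtain ⟨b, hb⟩ := h2
  have hb' : (DD M f : ℤ) = 1 + M * b := by linarith
  unfold nr V xx yy
  push_cast
  rw [ha, hb']
  exact ⟨(i * a + j * f.1.1) * (2 * j + M * (i * a + j * f.1.1)) +
    (i * b + j * f.1.2) * (2 * i + M * (i * b + j * f.1.2)), by ring⟩

theorem fiber {α β : Type*} (A : Finset α) (B : Finset β) (U : Finset (α × β)) (hU : U ⊆ A ×ˢ B)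
    (g : α → ℝ) (h : ∀ p ∈ A, ∀ S : Finset β, S ⊆ B → (∀ t ∈ S, (p, t) ∈ U) → (S.card : ℝ) ≤ g p) :
    (U.card : ℝ) ≤ ∑ p ∈ A, g p := by
  classical
  refine cover U A (fun p f => f.1 = p) g (fun f hf => ⟨f.1, (mem_product.1 (hU hf)).1, rfl⟩) ?_
  intro p hp U' hU' h'
  have hinj : Set.InjOn Prod.snd (U' : Set (α × β)) := fun f hf g hg e =>
    Prod.ext ((h' f hf).trans (h' g hg).symm) e
  rw [← card_image_of_injOn hinj]
  refine h p hp _ (fun t ht => ?_) fun t ht => ?_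
  · obtain ⟨f, hf, rfl⟩ := mem_image.1 ht
    exact (mem_product.1 (hU (hU' hf))).2
  · obtain ⟨f, hf, rfl⟩ := mem_image.1 ht
    rw [← h' f hf]; exact hU' hf

/-- Most pairs of the square are coprime. -/
theorem card_base {I M L : ℕ} (hI : 0 < I) (hL : 0 < L)
    (hM1 : ∀ q : ℕ, q.Prime → q ≤ I → q ^ 2 ∣ M) :
    (L : ℝ) ^ 2 - 9 * L ^ 2 / I ≤ (base M L).card := by
  have h0 := card_filter_add_card_filter_not (s := sqr L)
    (fun p => Nat.Coprime (xx M p) (yy M p))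
  have h1 : ((base M L).card : ℝ) +
      (((sqr L).filter fun p => ¬ Nat.Coprime (xx M p) (yy M p)).card : ℝ) = L ^ 2 := by
    rw [← card_sqr]; exact_mod_cast h0
  have h2 := cover ((sqr L).filter fun p => ¬ Nat.Coprime (xx M p) (yy M p))
    ((Ioc I (2 * L)).filter Nat.Prime) (fun q p => q ∣ xx M p ∧ q ∣ p.2 ∧ ¬ q ∣ M)
    (fun q => 9 * (L : ℝ) ^ 2 * (1 / (q : ℝ) ^ 2)) (fun p hp => by
      obtain ⟨hp1, hp2⟩ := mem_filter.1 hp
      obtain ⟨q, hq, q1, q2⟩ := Nat.Prime.not_coprime_iff_dvd.1 hp2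
      have hqM : ¬ q ∣ M := fun h => by
        unfold xx at q1
        exact hq.not_dvd_one ((Nat.dvd_add_left (h.mul_right _)).1 q1)
      have q3 : q ∣ p.2 := ((Nat.Prime.dvd_mul hq).1 q2).resolve_left hqM
      have hb := mem_Ico.1 (mem_product.1 hp1).2
      have q4 := Nat.le_of_dvd (by omega) q3
      refine ⟨q, mem_filter.2 ⟨mem_Ioc.2 ⟨?_, by omega⟩, hq⟩, q1, q3, hqM⟩
      by_contra h
      exact hqM ((dvd_pow_self q two_ne_zero).trans (hM1 q hq (by omega))))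
    (fun q hq U hU hr => by
      obtain ⟨q1, hq⟩ := mem_filter.1 hq
      rw [mem_Ioc] at q1
      have hq0 : (0 : ℝ) < q := by exact_mod_cast hq.pos
      have hq' : Prime (q : ℤ) := Nat.prime_iff_prime_int.1 hq
      have hUs : U ⊆ sqr L := hU.trans (filter_subset _ _)
      have hsub : U ⊆ U.image Prod.fst ×ˢ U.image Prod.snd := fun p hp =>
        mem_product.2 ⟨mem_image_of_mem _ hp, mem_image_of_mem _ hp⟩
      have w1 := win (U.image Prod.fst) L L q hq.pos (fun t ht => by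
          obtain ⟨p, hp, rfl⟩ := mem_image.1 ht
          exact (mem_product.1 (hUs hp)).1) (fun t ht t' ht' => by
          obtain ⟨p, hp, rfl⟩ := mem_image.1 ht
          obtain ⟨p', hp', rfl⟩ := mem_image.1 ht'
          have a1 : (q : ℤ) ∣ (xx M p : ℤ) := by exact_mod_cast (hr p hp).1
          have a2 : (q : ℤ) ∣ (xx M p' : ℤ) := by exact_mod_cast (hr p' hp').1
          have a3 : (q : ℤ) ∣ M * ((p.1 : ℤ) - p'.1) := by
            have := dvd_sub a1 a2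
            unfold xx at this
            push_cast at this
            rwa [show (1 : ℤ) + M * p.1 - (1 + M * p'.1) = M * ((p.1 : ℤ) - p'.1) by ring] at this
          refine (hq'.dvd_or_dvd a3).resolve_left fun h => (hr p hp).2.2 ?_
          exact_mod_cast h)
      have w2 := win (U.image Prod.snd) L L q hq.pos (fun t ht => by
          obtain ⟨p, hp, rfl⟩ := mem_image.1 ht
          exact (mem_product.1 (hUs hp)).2) (fun t ht t' ht' => by
          obtain ⟨p, hp, rfl⟩ := mem_image.1 ht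
          obtain ⟨p', hp', rfl⟩ := mem_image.1 ht'
          have a1 : (q : ℤ) ∣ (p.2 : ℤ) := by exact_mod_cast (hr p hp).2.1
          have a2 : (q : ℤ) ∣ (p'.2 : ℤ) := by exact_mod_cast (hr p' hp').2.1
          exact dvd_sub a1 a2)
      have w3 : (U.card : ℝ) ≤ ((U.image Prod.fst).card : ℝ) * (U.image Prod.snd).card := by
        have := card_le_card hsub
        rw [card_product] at this
        exact_mod_cast this
      have w4 : (1 : ℝ) ≤ 2 * (L / q) := by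
        rw [← mul_div_assoc, le_div_iff₀ hq0, one_mul]; exact_mod_cast q1.2
      have w5 : 9 * (L : ℝ) ^ 2 * (1 / (q : ℝ) ^ 2) = (3 * (L / q)) * (3 * (L / q)) := by
        field_simp; norm_num
      rw [w5]
      exact w3.trans (mul_le_mul (by linarith) (by linarith) (by positivity) (by positivity)))
  rw [← mul_sum] at h2
  have h3 := tail_sq hI ((Ioc I (2 * L)).filter Nat.Prime)
    fun q hq => (mem_Ioc.1 (mem_filter.1 hq).1).1
  have h4 := mul_le_mul_of_nonneg_left h3 (show (0 : ℝ) ≤ 9 * (L : ℝ) ^ 2 by positivity)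
  rw [mul_one_div] at h4
  linarith

end Pool.Agent.Lib.MP_e6b4b8_nt.NL
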