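import Pool.Agent.Lib.MP_e6b4b8_nt.NL.Core

/-!
Choice of the parameters.
-/

set_option autoImplicit false

open Finset Filter

namespace Pool.Agent.Lib.MP_e6b4b8_nt.NL

theorem exists_M (I : ℕ) : ∃ M : ℕ, 0 < M ∧ (∀ q : ℕ, q.Prime → q ≤ I → q ^ 2 ∣ M) ∧
    ∀ q : ℕ, q.Prime → I < q → ¬ q ∣ M :=
  ⟨I.factorial ^ 2, pow_pos (Nat.factorial_pos I) 2,
    fun _ hq h => pow_dvd_pow_of_dvd (hq.dvd_factorial.2 h) 2,
    fun _ hq h h' => absurd (hq.dvd_factorial.1 (hq.dvd_of_dvd_pow h')) (not_le.2 h)⟩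

theorem log2_le {n : ℕ} {l : ℝ} (hl : 2 ≤ l) (h : Real.log n ≤ l) :
    (Nat.log 2 n : ℝ) + 1 ≤ 2 * l := by
  rcases Nat.eq_zero_or_pos n with rfl | hn
  · simp; linarith
  have h1 : ((2 ^ Nat.log 2 n : ℕ) : ℝ) ≤ n := by exact_mod_cast Nat.pow_log_le_self 2 hn.ne'
  have h2 := Real.log_le_log (by positivity) h1
  push_cast at h2
  rw [Real.log_pow] at h2
  have h3 := Real.log_two_gt_d9
  have h4 : (0 : ℝ) ≤ Nat.log 2 n := by positivity
  nlinarith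

theorem finite_form {I M T X : ℕ} (hI : 1000 ≤ I) (hM : 0 < M)
    (hM1 : ∀ q : ℕ, q.Prime → q ≤ I → q ^ 2 ∣ M) (hM2 : ∀ q : ℕ, q.Prime → I < q → ¬ q ∣ M)
    (hT : 4800 ≤ T) (hT1 : 240000000 * (M : ℝ) ^ 4 ≤ Real.log T)
    (hT2 : 108000 * Real.log (Real.log X) ≤ T) (hl : 1 ≤ Real.log (Real.log X))
    (hl2 : 2 ≤ Real.log X)
    (hs : 20 * M ^ 2 * T * (6400 * M ^ 8 + 1 + T) ≤ Nat.sqrt X) :
    (X : ℝ) ≤ (38400 * 8640000 ^ 2 * (M : ℝ) ^ 12) * (T ^ 3 * Real.log X ^ 2 * (plus X).card) := by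
  have hT0 : 0 < T := lt_of_lt_of_le (by norm_num) hT
  obtain ⟨s, hs0⟩ : ∃ s, s = Nat.sqrt X := ⟨_, rfl⟩
  rw [← hs0] at hs
  have s1 : s * s ≤ X := hs0 ▸ Nat.sqrt_le X
  have s2 : X < (s + 1) * (s + 1) := hs0 ▸ Nat.lt_succ_sqrt X
  obtain ⟨D, hD⟩ : ∃ D, D = 20 * M ^ 2 * T := ⟨_, rfl⟩
  rw [← hD] at hs
  have hD0 : 0 < D := by rw [hD]; positivity
  obtain ⟨L, hL⟩ : ∃ L, L = s / D := ⟨_, rfl⟩
  have l1 : 6400 * M ^ 8 + 1 + T ≤ L := by
    rw [hL, Nat.le_div_iff_mul_le hD0, mul_comm]; exact hs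
  have l2 : D * L ≤ s := hL ▸ Nat.mul_div_le s D
  have l3 : s < D * (L + 1) := hL ▸ Nat.lt_mul_div_succ s hD0
  have hL0 : 0 < L := by omega
  have l4 : s + 1 ≤ D * (2 * L) := (Nat.succ_le_of_lt l3).trans (Nat.mul_le_mul_left _ (by omega))
  obtain ⟨R, hR⟩ : ∃ R, R = 10 * (M * (M * L) * T) := ⟨_, rfl⟩
  have r1 : 2 * R = D * L := by rw [hR, hD]; ring
  have r2 : 2 * R ^ 2 ≤ X := by
    have := Nat.mul_le_mul l2 l2
    rw [← r1] at this
    nlinarith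
  have hsX : s ≤ X := hs0 ▸ Nat.sqrt_le_self X
  have hLX : L ≤ X := le_trans (Nat.le_mul_of_pos_left L hD0) (l2.trans hsX)
  have hlog : ∀ n : ℕ, 0 < n → n ≤ X → (Nat.log 2 n : ℝ) + 1 ≤ 2 * Real.log X := fun n h0 hn =>
    log2_le hl2 (Real.log_le_log (by exact_mod_cast h0) (by exact_mod_cast hn))
  have hM' : (0 : ℝ) < M := by exact_mod_cast hM
  have hT' : (0 : ℝ) < T := by exact_mod_cast hT0
  have hL' : (0 : ℝ) < L := by exact_mod_cast hL0
  have hR' : (R : ℝ) = 10 * (M * (M * L) * T) := by exact_mod_cast hR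
  obtain ⟨P, hP⟩ : ∃ P, P = 240000 * M ^ 4 * T := ⟨_, rfl⟩
  have hP' : (P : ℝ) = 240000 * M ^ 4 * T := by exact_mod_cast hP
  have hTP : T ≤ P := hP ▸ Nat.le_mul_of_pos_left T (by positivity)
  obtain ⟨K, hK⟩ : ∃ K : ℝ, K = 4320000 * M ^ 4 * T * (Nat.log 2 (2 * R) + 1) := ⟨_, rfl⟩
  have hK0 : 0 < K := by rw [hK]; positivity
  have h1 : (((Icc 1 P).filter Nat.Prime).card : ℝ) ≤ T / 200 := by
    refine (pi_le (by omega)).trans ?_
    have a1 : Real.log T ≤ Real.log P := Real.log_le_log hT' (by exact_mod_cast hTP)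
    have a2 : 0 < 240000000 * (M : ℝ) ^ 4 := by positivity
    rw [div_le_div_iff₀ (by linarith) (by norm_num), hP']
    have := mul_le_mul_of_nonneg_left (hT1.trans a1) hT'.le
    rw [hP'] at this
    linarith
  have h2 : 24 * (R : ℝ) ^ 2 / P ≤ L ^ 2 * T / 100 := by
    rw [hR', hP']; apply le_of_eq; field_simp; norm_num
  have h3 : ∑ p ∈ (Icc 1 L).filter Nat.Prime, (1 : ℝ) / p ≤ T / 2400 := by
    refine (mertens L).trans ?_
    have a1 := Real.log_le_log (by positivity) (hlog L hL0 hLX)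
    rw [Real.log_mul (by norm_num) (by linarith)] at a1
    have := Real.log_two_lt_d9
    linarith
  have h4 : 432 * (R : ℝ) ^ 2 * (Nat.log 2 (2 * R) + 1) / K ≤ L ^ 2 * T / 100 := by
    rw [hK, hR']; apply le_of_eq; field_simp; norm_num
  obtain ⟨G, g1, g2, g3⟩ := many_good hI hM (by omega) hT (by omega) (by omega) hR hM1 hM2 hK0
    h1 h2 h3 h4
  have g4 := good_le hM hL0 hT0 hR hK0 r2 G g1 g2
  have k1 : K ≤ 8640000 * M ^ 4 * T * Real.log X := by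
    have a1 := hlog (2 * R) (by rw [r1]; positivity) (by omega)
    have := mul_le_mul_of_nonneg_left a1 (show (0 : ℝ) ≤ 4320000 * M ^ 4 * T by positivity)
    rw [hK]; linarith
  have k2 : K ^ 2 ≤ (8640000 * M ^ 4 * T * Real.log X) ^ 2 := pow_le_pow_left₀ hK0.le k1 2
  have k3 : (X : ℝ) ≤ (20 * M ^ 2 * T * (2 * L)) ^ 2 := by
    have := s2.le.trans (Nat.mul_le_mul l4 l4)
    rw [hD, ← sq] at this
    exact_mod_cast this
  have k4 : (L : ℝ) ^ 2 * T ≤ 6 * ((plus X).card * (8640000 * M ^ 4 * T * Real.log X) ^ 2) := by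
    have := mul_le_mul_of_nonneg_left k2 (show (0 : ℝ) ≤ (plus X).card by positivity)
    linarith
  calc (X : ℝ) ≤ (20 * M ^ 2 * T * (2 * L)) ^ 2 := k3
    _ = (1600 * M ^ 4 * T) * (L ^ 2 * T) := by ring
    _ ≤ (6400 * M ^ 4 * T) * (6 * ((plus X).card * (8640000 * M ^ 4 * T * Real.log X) ^ 2)) :=
      mul_le_mul (by nlinarith [show (0 : ℝ) ≤ M ^ 4 * T by positivity]) k4 (by positivity)
        (by positivity)
    _ = _ := by ring

theorem main : ∃ c : ℝ, 0 < c ∧ ∀ᶠ X : ℕ in atTop,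
    c * X / (Real.log X ^ 2 * Real.log (Real.log X) ^ 3) ≤ ((plus X).card : ℝ) := by
  obtain ⟨I, hI⟩ : ∃ I : ℕ, 1000 ≤ I := ⟨_, le_rfl⟩
  obtain ⟨M, hM, hM1, hM2⟩ := exists_M I
  have hM' : (1 : ℝ) ≤ M := by exact_mod_cast hM
  obtain ⟨D, hD⟩ : ∃ D : ℝ, D = 38400 * 8640000 ^ 2 * (M : ℝ) ^ 12 := ⟨_, rfl⟩
  have hD0 : 0 < D := by rw [hD]; positivity
  refine ⟨1 / (D * 216000 ^ 3), by positivity, ?_⟩
  have t1 : Tendsto (fun X : ℕ => Real.log X) atTop atTop :=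
    Real.tendsto_log_atTop.comp tendsto_natCast_atTop_atTop
  have t2 : Tendsto (fun X : ℕ => Real.log (Real.log X)) atTop atTop :=
    Real.tendsto_log_atTop.comp t1
  have t3 := Real.tendsto_log_atTop.comp t2
  obtain ⟨B, hB⟩ : ∃ B : ℝ, B = 20 * (M : ℝ) ^ 2 * 216000 * (6400 * M ^ 8 + 1 + 216000) :=
    ⟨_, rfl⟩
  have hB0 : 0 < B := by rw [hB]; positivity
  have t4 : ∀ᶠ X : ℕ in atTop, Real.log X ^ 4 / (1 * (X : ℝ) + 0) < 1 / B ^ 2 :=
    ((Real.tendsto_pow_log_div_mul_add_atTop 1 0 4 one_ne_zero).comp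
      tendsto_natCast_atTop_atTop).eventually (gt_mem_nhds (by positivity))
  filter_upwards [t1.eventually_ge_atTop 2, t2.eventually_ge_atTop 1,
    t3.eventually_ge_atTop (240000000 * (M : ℝ) ^ 4), t4, eventually_gt_atTop 0]
    with X h1 h2 h3 h4 h5
  simp only [Function.comp] at h3
  obtain ⟨T, hT⟩ : ∃ T, T = ⌈108000 * Real.log (Real.log X)⌉₊ := ⟨_, rfl⟩
  have a1 : 108000 * Real.log (Real.log X) ≤ T := hT ▸ Nat.le_ceil _
  have a2 : (T : ℝ) ≤ 216000 * Real.log (Real.log X) := by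
    have := Nat.ceil_lt_add_one (show 0 ≤ 108000 * Real.log (Real.log X) by positivity)
    rw [← hT] at this
    linarith
  have a3 : 4800 ≤ T := by
    have : (4800 : ℝ) ≤ T := by linarith
    exact_mod_cast this
  have a4 : Real.log (Real.log X) ≤ Real.log X :=
    (Real.log_le_sub_one_of_pos (by linarith)).trans (by linarith)
  have hX : (0 : ℝ) < X := by exact_mod_cast h5
  have a5 : 20 * M ^ 2 * T * (6400 * M ^ 8 + 1 + T) ≤ Nat.sqrt X := by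
    rw [Nat.le_sqrt']
    have b1 : (T : ℝ) ≤ 216000 * Real.log X := by linarith
    have b2 : (6400 * (M : ℝ) ^ 8 + 1 + T) ≤ (6400 * M ^ 8 + 1 + 216000) * Real.log X := by
      have : (0 : ℝ) ≤ 6400 * (M : ℝ) ^ 8 + 1 := by positivity
      nlinarith
    have b3 : 20 * (M : ℝ) ^ 2 * T * (6400 * M ^ 8 + 1 + T) ≤ B * Real.log X ^ 2 :=
      calc 20 * (M : ℝ) ^ 2 * T * (6400 * M ^ 8 + 1 + T)
          ≤ 20 * (M : ℝ) ^ 2 * (216000 * Real.log X) *
            ((6400 * M ^ 8 + 1 + 216000) * Real.log X) :=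
          mul_le_mul (mul_le_mul_of_nonneg_left b1 (by positivity)) b2 (by positivity)
            (by positivity)
        _ = B * Real.log X ^ 2 := by rw [hB]; ring
    have b4 := pow_le_pow_left₀ (by positivity) b3 2
    rw [one_mul, add_zero, div_lt_div_iff₀ hX (by positivity)] at h4
    have b5 : (20 * (M : ℝ) ^ 2 * T * (6400 * M ^ 8 + 1 + T)) ^ 2 ≤ X := by
      have : (B * Real.log X ^ 2) ^ 2 = Real.log X ^ 4 * B ^ 2 := by ring
      linarith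
    exact_mod_cast b5
  have a6 := finite_form hI hM hM1 hM2 a3
    (h3.trans (Real.log_le_log (by linarith) (by linarith))) a1 h2 h1 a5
  rw [← hD] at a6
  have a7 : (T : ℝ) ^ 3 ≤ (216000 * Real.log (Real.log X)) ^ 3 :=
    pow_le_pow_left₀ (by positivity) a2 3
  rw [div_le_iff₀ (by positivity), div_mul_eq_mul_div, one_mul, div_le_iff₀ (by positivity)]
  calc (X : ℝ) ≤ D * (T ^ 3 * Real.log X ^ 2 * (plus X).card) := a6
    _ ≤ D * ((216000 * Real.log (Real.log X)) ^ 3 * Real.log X ^ 2 * (plus X).card) := by gcongr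
    _ = _ := by ring

end Pool.Agent.Lib.MP_e6b4b8_nt.NL
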