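import Pool.Agent.Lib.MP_e6b4b8_nt.NL.Bad

/-!
Triangles in which two norms have a common prime factor.
-/

set_option autoImplicit false

open Finset

namespace Pool.Agent.Lib.MP_e6b4b8_nt.NL

def uu (M : ℕ) (p : ℕ × ℕ) : ℕ := xx M p ^ 2 + yy M p ^ 2

def WW (u : ℕ) : ℕ := (u ^ 2 + 4) * (u ^ 2 + 16)

noncomputable def aa (M : ℕ) (f : (ℕ × ℕ) × ℕ) : ℕ := xx M f.1 * CC M f + yy M f.1 * DD M f

/-- The prime `q` divides two of the three norms. -/
def Two (M q : ℕ) (f : (ℕ × ℕ) × ℕ) : Prop :=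
  (q ∣ nr (V M 1 0 f) ∧ q ∣ nr (V M 1 1 f)) ∨ (q ∣ nr (V M 1 0 f) ∧ q ∣ nr (V M 2 1 f)) ∨
    (q ∣ nr (V M 1 1 f) ∧ q ∣ nr (V M 2 1 f))

theorem res {M L T q : ℕ} (hM : 0 < M) {f : (ℕ × ℕ) × ℕ} (hf : f ∈ fam M L T) (h : Two M q f) :
    q ∣ WW (uu M f.1) ∧ ∃ c ∈ ({(2, 1), (4, 1), (4, 3)} : Finset (ℕ × ℕ)),
      q ∣ c.1 * aa M f + c.2 * uu M f.1 := by
  have hd := det hM hf
  have e1 : (uu M f.1 : ℤ) * nr (V M 1 0 f) = (aa M f : ℤ) ^ 2 + 1 := by
    unfold uu nr V aa; push_cast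
    linear_combination ((xx M f.1 : ℤ) * DD M f - yy M f.1 * CC M f + 1) * hd
  have e2 : (nr (V M 1 1 f) : ℤ) = nr (V M 1 0 f) + 2 * aa M f + uu M f.1 := by
    unfold uu nr V aa; push_cast; ring
  have e3 : (nr (V M 2 1 f) : ℤ) = 4 * nr (V M 1 0 f) + 4 * aa M f + uu M f.1 := by
    unfold uu nr V aa; push_cast; ring
  unfold Two at h
  simp only [← Int.natCast_dvd_natCast] at h ⊢
  unfold WW
  push_cast
  generalize (uu M f.1 : ℤ) = u at *
  generalize (aa M f : ℤ) = a at *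
  generalize (nr (V M 1 0 f) : ℤ) = n at *
  rw [e2, e3] at h
  rcases h with ⟨⟨k, hk⟩, ⟨l, hl⟩⟩ | ⟨⟨k, hk⟩, ⟨l, hl⟩⟩ | ⟨⟨k, hk⟩, ⟨l, hl⟩⟩
  · refine ⟨Dvd.dvd.mul_right ⟨(l - k) * (u - 2 * a) + 4 * u * k, ?_⟩ _, (2, 1), by simp,
      ⟨l - k, ?_⟩⟩
    · linear_combination (u - 2 * a) * (hl - hk) + 4 * u * hk - 4 * e1
    · push_cast; linear_combination hl - hk
  · refine ⟨Dvd.dvd.mul_left ⟨(l - 4 * k) * (u - 4 * a) + 16 * u * k, ?_⟩ _, (4, 1), by simp,
      ⟨l - 4 * k, ?_⟩⟩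
    · linear_combination (u - 4 * a) * (hl - 4 * hk) + 16 * u * hk - 16 * e1
    · push_cast; linear_combination hl - 4 * hk
  · refine ⟨Dvd.dvd.mul_left ⟨(l - 4 * k) * (5 * u + 4 * a) + 16 * u * k, ?_⟩ _, (4, 3), by simp,
      ⟨4 * k - l, ?_⟩⟩
    · linear_combination (5 * u + 4 * a) * (hl - 4 * hk) + 16 * u * hk - 16 * e1
    · push_cast; linear_combination 4 * hk - hl

theorem two_big {I M L T q : ℕ} (hM : 0 < M) (hM1 : ∀ q : ℕ, q.Prime → q ≤ I → q ^ 2 ∣ M)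
    (hq : q.Prime) {f : (ℕ × ℕ) × ℕ} (hf : f ∈ fam M L T) (h : Two M q f) : I < q := by
  by_contra hc
  have m1 : (q : ℤ) ∣ M := by
    exact_mod_cast (dvd_pow_self q two_ne_zero).trans (hM1 q hq (by omega))
  have key : ∀ i j : ℕ, q ∣ nr (V M i j f) → q ∣ i ^ 2 + j ^ 2 := by
    intro i j hd
    have m2 : (q : ℤ) ∣ nr (V M i j f) := by exact_mod_cast hd
    exact_mod_cast (dvd_sub_right m2).1 (m1.trans (nr_mod hM i j hf))
  rcases h with ⟨a, -⟩ | ⟨a, -⟩ | ⟨a, b⟩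
  · exact hq.not_dvd_one (key 1 0 a)
  · exact hq.not_dvd_one (key 1 0 a)
  · have a1 := (Nat.prime_dvd_prime_iff_eq hq Nat.prime_two).1 (key 1 1 a)
    have a2 := (Nat.prime_dvd_prime_iff_eq hq Nat.prime_five).1 (key 2 1 b)
    omega

theorem res_t {M L T q : ℕ} (hM : 0 < M) (hq : q.Prime) (h2 : 2 < q) (hqM : ¬ q ∣ M)
    {p : ℕ × ℕ} (hp : p ∈ base M L) (S : Finset ℕ) (hS : S ⊆ Ico T (T + T))
    (h : ∀ t ∈ S, Two M q (p, t)) : (S.card : ℝ) ≤ 3 * (T / q + 1) := by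
  have hf : ∀ t ∈ S, (p, t) ∈ fam M L T := fun t ht => mem_product.2 ⟨hp, hS ht⟩
  have hq' : Prime (q : ℤ) := Nat.prime_iff_prime_int.1 hq
  have n2 : ∀ k, ¬ q ∣ 2 ^ k := fun k h => by
    have := Nat.le_of_dvd two_pos (hq.dvd_of_dvd_pow h); omega
  have h1 := win_cover S T T q hq.pos hS ({(2, 1), (4, 1), (4, 3)} : Finset (ℕ × ℕ))
    (fun c t => q ∣ c.1 * aa M (p, t) + c.2 * uu M p)
    (fun t ht => (res hM (hf t ht) (h t ht)).2) (fun c hc t ht t' _ a1 a2 => by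
      have hW := (res hM (hf t ht) (h t ht)).1
      rw [← Int.natCast_dvd_natCast] at a1 a2
      have a3 : (q : ℤ) ∣ (c.1 * M * uu M p) * ((t : ℤ) - t') := by
        have := dvd_sub a1 a2
        have e : ((c.1 * aa M (p, t) + c.2 * uu M p : ℕ) : ℤ) -
            ((c.1 * aa M (p, t') + c.2 * uu M p : ℕ) : ℤ) =
            (c.1 * M * uu M p) * ((t : ℤ) - t') := by
          unfold aa CC DD uu; push_cast; ring
        rwa [e] at this
      refine (hq'.dvd_or_dvd a3).resolve_left fun h' => ?_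
      have h'' : q ∣ c.1 * M * uu M p := by exact_mod_cast h'
      rcases (Nat.Prime.dvd_mul hq).1 h'' with h' | h'
      · rcases (Nat.Prime.dvd_mul hq).1 h' with h' | h'
        · simp only [mem_insert, mem_singleton] at hc
          rcases hc with rfl | rfl | rfl
          · exact n2 1 h'
          · exact n2 2 h'
          · exact n2 2 h'
        · exact hqM h'
      · refine n2 6 ?_
        have e : WW (uu M p) = uu M p * (uu M p ^ 3 + 20 * uu M p) + 2 ^ 6 := by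
          unfold WW; ring
        rw [e] at hW
        exact (Nat.dvd_add_right (h'.mul_right _)).1 hW)
  have h3 : ((({(2, 1), (4, 1), (4, 3)} : Finset (ℕ × ℕ)).card : ℕ) : ℝ) ≤ 3 := by
    exact_mod_cast card_le_three
  exact h1.trans (mul_le_mul_of_nonneg_right h3 (by positivity))

open Polynomial in
theorem res_y {M L q x : ℕ} (hq : q.Prime) (hqM : ¬ q ∣ M) (S : Finset ℕ)
    (hS : S ⊆ Ico L (L + L)) (h : ∀ y ∈ S, q ∣ WW (uu M (x, y))) :
    (S.card : ℝ) ≤ 8 * (L / q + 1) := by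
  classical
  have := Fact.mk hq
  have hq' : Prime (q : ℤ) := Nat.prime_iff_prime_int.1 hq
  set c : ZMod q := ((1 + M * x : ℕ) : ZMod q) ^ 2 with hc
  set F : (ZMod q)[X] := ((X ^ 2 + C c) ^ 2 + C 4) * ((X ^ 2 + C c) ^ 2 + C 16) with hF
  have hm : F.Monic := by rw [hF]; monicity!
  have hdeg : F.natDegree ≤ 8 := by rw [hF]; compute_degree
  have h1 := win_cover S L L q hq.pos hS F.roots.toFinset
    (fun r y => ((M * y : ℕ) : ZMod q) = r) (fun y hy => by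
      refine ⟨_, ?_, rfl⟩
      rw [Multiset.mem_toFinset, mem_roots hm.ne_zero, IsRoot.def]
      have := (ZMod.natCast_eq_zero_iff _ _).2 (h y hy)
      unfold WW uu xx yy at this
      rw [← this, hF, hc]
      simp only [eval_mul, eval_add, eval_pow, eval_X, eval_C]
      push_cast; ring) (fun r _ t _ t' _ a1 a2 => by
      have a3 := (ZMod.natCast_eq_natCast_iff _ _ _).1 (a2.trans a1.symm)
      rw [Nat.modEq_iff_dvd] at a3
      push_cast at a3
      rw [← mul_sub] at a3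
      exact (hq'.dvd_or_dvd a3).resolve_left fun h' => hqM (by exact_mod_cast h'))
  have h3 : (F.roots.toFinset.card : ℝ) ≤ 8 := by
    exact_mod_cast (Multiset.toFinset_card_le _).trans ((card_roots' F).trans hdeg)
  exact h1.trans (mul_le_mul_of_nonneg_right h3 (by positivity))

theorem big {M L : ℕ} (hM : 0 < M) (hL : 6400 * M ^ 8 < L) {p : ℕ × ℕ} (hp : p ∈ sqr L)
    (Q : Finset ℕ) (hQ : ∀ q ∈ Q, q.Prime ∧ L < q ∧ q ∣ WW (uu M p)) : Q.card ≤ 8 := by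
  obtain ⟨b1, b2, -, b4⟩ := xy_bd hM hp
  have hL0 : 0 < L := by omega
  have h1 : ∏ q ∈ Q, q ∣ WW (uu M p) :=
    Finset.prod_primes_dvd _ (fun q hq => (hQ q hq).1.prime) fun q hq => (hQ q hq).2.2
  have h2 : L ^ Q.card ≤ ∏ q ∈ Q, q := Finset.pow_card_le_prod _ _ _ fun q hq => (hQ q hq).2.1.le
  have h3 := Nat.le_of_dvd (by unfold WW; positivity) h1
  have hML : 0 < M * L := Nat.mul_pos hM hL0
  have h4 : uu M p ≤ 8 * (M * L) ^ 2 := by
    have a1 := Nat.pow_le_pow_left b2 2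
    have a2 := Nat.pow_le_pow_left b4 2
    rw [mul_pow] at a1 a2
    unfold uu; omega
  have h5 : uu M p ^ 2 + 16 ≤ 80 * (M * L) ^ 4 := by
    have a1 := Nat.pow_le_pow_left h4 2
    have a2 : (8 * (M * L) ^ 2) ^ 2 = 64 * (M * L) ^ 4 := by ring
    have a3 : 0 < (M * L) ^ 4 := pow_pos hML 4
    omega
  have h6 : WW (uu M p) < L ^ 9 :=
    calc WW (uu M p) ≤ (80 * (M * L) ^ 4) * (80 * (M * L) ^ 4) :=
        Nat.mul_le_mul (by omega) h5
      _ = (6400 * M ^ 8) * L ^ 8 := by ring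
      _ < L * L ^ 8 := Nat.mul_lt_mul_of_pos_right hL (pow_pos hL0 8)
      _ = L ^ 9 := by ring
  have h7 : L ^ Q.card < L ^ 9 := by omega
  have h8 : 1 < L := by
    have : 0 < M ^ 8 := pow_pos hM 8
    omega
  have := (Nat.pow_lt_pow_iff_right h8).1 h7
  omega

theorem bad_cop {I M L T : ℕ} (hI : 2 ≤ I) (hM : 0 < M) (hL : 6400 * M ^ 8 < L) (hTL : T ≤ L)
    (hM1 : ∀ q : ℕ, q.Prime → q ≤ I → q ^ 2 ∣ M) (hM2 : ∀ q : ℕ, q.Prime → I < q → ¬ q ∣ M)
    (U : Finset ((ℕ × ℕ) × ℕ)) (hU : U ⊆ fam M L T) (h : ∀ f ∈ U, ∃ q, q.Prime ∧ Two M q f) :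
    (U.card : ℝ) ≤ 48 * L ^ 2 * T / I +
      48 * L ^ 2 * (∑ p ∈ (Icc 1 L).filter Nat.Prime, (1 : ℝ) / p) + 48 * L ^ 2 := by
  set Q := (Ioc I L).filter Nat.Prime with hQ
  have h1 := fiber (base M L) (Ico T (T + T)) U hU
    (fun p => (∑ q ∈ Q, if q ∣ WW (uu M p) then 3 * ((T : ℝ) / q + 1) else 0) + 48)
    (fun p hp S hS hS' => by
      have hW : WW (uu M p) ≠ 0 := by unfold WW; positivity
      set Z := (WW (uu M p)).primeFactors.filter (I < ·) with hZ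
      have a1 := cover S Z (fun q t => Two M q (p, t)) (fun q => 3 * ((T : ℝ) / q + 1))
        (fun t ht => by
          obtain ⟨q, hq, h2⟩ := h _ (hS' t ht)
          exact ⟨q, mem_filter.2 ⟨Nat.mem_primeFactors.2 ⟨hq, (res hM (hU (hS' t ht)) h2).1, hW⟩,
            two_big hM hM1 hq (hU (hS' t ht)) h2⟩, h2⟩)
        (fun q hq W hW' hr => by
          obtain ⟨q1, q2⟩ := mem_filter.1 hq
          have q3 := Nat.prime_of_mem_primeFactors q1
          exact res_t hM q3 (by omega) (hM2 q q3 q2) hp W (hW'.trans hS) hr)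
      rw [← sum_filter_add_sum_filter_not Z (· ≤ L)] at a1
      refine a1.trans (add_le_add ?_ ?_)
      · rw [← sum_filter]
        refine sum_le_sum_of_subset_of_nonneg (fun q hq => ?_) fun q _ _ => by positivity
        obtain ⟨q0, q4⟩ := mem_filter.1 hq
        obtain ⟨q1, q2⟩ := mem_filter.1 q0
        exact mem_filter.2 ⟨mem_filter.2 ⟨mem_Ioc.2 ⟨q2, q4⟩, Nat.prime_of_mem_primeFactors q1⟩,
          Nat.dvd_of_mem_primeFactors q1⟩
      · have b1 : ((Z.filter fun q => ¬ q ≤ L).card : ℝ) ≤ 8 := by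
          exact_mod_cast big hM hL (mem_filter.1 hp).1 _ fun q hq => by
            obtain ⟨q0, q4⟩ := mem_filter.1 hq
            obtain ⟨q1, -⟩ := mem_filter.1 q0
            exact ⟨Nat.prime_of_mem_primeFactors q1, not_le.1 q4, Nat.dvd_of_mem_primeFactors q1⟩
        have b2 : ∑ q ∈ Z.filter fun q => ¬ q ≤ L, 3 * ((T : ℝ) / q + 1) ≤
            ∑ _q ∈ Z.filter fun q => ¬ q ≤ L, (6 : ℝ) := by
          refine sum_le_sum fun q hq => ?_
          have q4 := not_le.1 (mem_filter.1 hq).2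
          have : (T : ℝ) / q ≤ 1 :=
            div_le_one_of_le₀ (by exact_mod_cast (by omega : T ≤ q)) (by positivity)
          linarith
        rw [sum_const, nsmul_eq_mul] at b2
        linarith)
  rw [sum_add_distrib, sum_const, nsmul_eq_mul, sum_comm] at h1
  have h2 : ∀ q ∈ Q, (∑ p ∈ base M L, if q ∣ WW (uu M p) then 3 * ((T : ℝ) / q + 1) else 0) ≤
      48 * L ^ 2 * T * (1 / (q : ℝ) ^ 2) + 48 * L ^ 2 * (1 / q) := by
    intro q hq
    obtain ⟨q1, hq⟩ := mem_filter.1 hq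
    rw [mem_Ioc] at q1
    have hq0 : (0 : ℝ) < q := by exact_mod_cast hq.pos
    rw [← sum_filter, sum_const, nsmul_eq_mul]
    have a1 := fiber (Ico L (L + L)) (Ico L (L + L))
      ((base M L).filter fun p => q ∣ WW (uu M p))
      ((filter_subset _ _).trans (filter_subset _ _)) (fun _ => 8 * ((L : ℝ) / q + 1))
      fun x _ S hS hS' => res_y hq (hM2 q hq q1.1) S hS fun y hy => (mem_filter.1 (hS' y hy)).2
    rw [sum_const, nsmul_eq_mul, Nat.card_Ico, Nat.add_sub_cancel] at a1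
    have a2 : (1 : ℝ) ≤ L / q := by
      rw [le_div_iff₀ hq0, one_mul]; exact_mod_cast q1.2
    have a3 : (L : ℝ) * (8 * ((L : ℝ) / q + 1)) ≤ L * (16 * (L / q)) :=
      mul_le_mul_of_nonneg_left (by linarith) (by positivity)
    refine (mul_le_mul_of_nonneg_right (a1.trans a3) (by positivity)).trans (le_of_eq ?_)
    field_simp; ring
  have h3 := sum_le_sum h2
  rw [sum_add_distrib, ← mul_sum, ← mul_sum] at h3
  have t1 := mul_le_mul_of_nonneg_left (tail_sq (by omega : 0 < I) Q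
    fun q hq => (mem_Ioc.1 (mem_filter.1 hq).1).1) (show (0 : ℝ) ≤ 48 * (L : ℝ) ^ 2 * T by positivity)
  have t2 : ∑ q ∈ Q, (1 : ℝ) / q ≤ ∑ p ∈ (Icc 1 L).filter Nat.Prime, (1 : ℝ) / p :=
    sum_le_sum_of_subset_of_nonneg (fun q hq => by
      obtain ⟨q1, hq⟩ := mem_filter.1 hq
      exact mem_filter.2 ⟨mem_Icc.2 ⟨hq.pos, (mem_Ioc.1 q1).2⟩, hq⟩) fun q _ _ => by positivity
  have t3 := mul_le_mul_of_nonneg_left t2 (show (0 : ℝ) ≤ 48 * (L : ℝ) ^ 2 by positivity)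
  have t4 := card_base_le M L
  rw [mul_one_div] at t1
  linarith

end Pool.Agent.Lib.MP_e6b4b8_nt.NL
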