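import Pool.Agent.Lib.MP_e6b4b8_nt.NL.Basic

/-!
Mean values: the number of roots of `-1`, reciprocals of primes, divisors of norms.
-/

set_option autoImplicit false

open Finset

namespace Pool.Agent.Lib.MP_e6b4b8_nt.NL

theorem descent (n : ℕ) : ∀ a u d : ℤ, a.toNat = n → 0 ≤ a → 0 < u → 0 < d →
    u * d = a ^ 2 + 1 → ∃ x1 y1 x2 y2 : ℤ, u = x1 ^ 2 + y1 ^ 2 ∧ d = x2 ^ 2 + y2 ^ 2 ∧
      a = x1 * x2 + y1 * y2 ∧ x1 * y2 - y1 * x2 = 1 := by
  induction n using Nat.strong_induction_on with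
  | _ n ih =>
    intro a u d hn ha hu hd h
    by_cases h1 : u ≤ a
    · have hd' : 0 < d - 2 * a + u := by
        have : 0 < u * (d - 2 * a + u) := by nlinarith [sq_nonneg (a - u)]
        exact (mul_pos_iff_of_pos_left hu).1 this
      obtain ⟨x1, y1, x2, y2, e1, e2, e3, e4⟩ := ih (a - u).toNat (by omega) (a - u) u
        (d - 2 * a + u) rfl (by omega) hu hd' (by linear_combination h)
      exact ⟨x1, y1, x2 + x1, y2 + y1, e1, by linear_combination e2 + 2 * e3 + e1,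
        by linear_combination e3 + e1, by linear_combination e4⟩
    by_cases h2 : d ≤ a
    · have hu' : 0 < u - 2 * a + d := by
        have : 0 < d * (u - 2 * a + d) := by nlinarith [sq_nonneg (a - d)]
        exact (mul_pos_iff_of_pos_left hd).1 this
      obtain ⟨x1, y1, x2, y2, e1, e2, e3, e4⟩ := ih (a - d).toNat (by omega) (a - d)
        (u - 2 * a + d) d rfl (by omega) hu' hd (by linear_combination h)
      exact ⟨x1 + x2, y1 + y2, x2, y2, by linear_combination e1 + 2 * e3 + e2, e2,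
        by linear_combination e3 + e2, by linear_combination e4⟩
    have h3 : (a + 1) * (a + 1) ≤ u * d := mul_le_mul (by omega) (by omega) (by omega) hu.le
    have ha0 : a = 0 := by nlinarith
    subst ha0
    have hu1 : u = 1 := by nlinarith
    have hd1 : d = 1 := by nlinarith
    exact ⟨1, 0, 0, 1, by omega, by omega, by omega, by omega⟩

theorem root_vec {d r : ℕ} (hr : r ∈ roots d) : ∃ v : ℤ × ℤ, (d : ℤ) = v.1 ^ 2 + v.2 ^ 2 ∧
    (d : ℤ) ∣ r * v.2 - v.1 ∧ (d : ℤ) ∣ r * v.1 + v.2 ∧ ∃ a b : ℤ, a * v.2 - b * v.1 = 1 := by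
  obtain ⟨h1, u, hu⟩ := mem_filter.1 hr
  rw [mem_range] at h1
  have hu0 : 0 < u := Nat.pos_of_ne_zero fun h => by simp [h] at hu
  obtain ⟨x1, y1, x2, y2, -, e2, e3, e4⟩ := descent r r u d (by simp) (by positivity)
    (by exact_mod_cast hu0) (by exact_mod_cast (by omega : 0 < d))
    (by rw [mul_comm]; exact_mod_cast hu.symm)
  refine ⟨(x2, y2), e2, ⟨y1, ?_⟩, ⟨x1, ?_⟩, x1, y1, e4⟩
  · simp only; rw [e3, e2]; linear_combination x2 * e4
  · simp only; rw [e3, e2]; linear_combination (-y2) * e4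

theorem sum_roots {Y : ℕ} (hY : 1 ≤ Y) : ∑ d ∈ Icc 1 Y, ((roots d).card : ℝ) ≤ 9 * Y := by
  classical
  have hex : ∀ z : (_ : ℕ) × ℕ, ∃ v : ℤ × ℤ, z.2 ∈ roots z.1 → ((z.1 : ℤ) = v.1 ^ 2 + v.2 ^ 2 ∧
      (z.1 : ℤ) ∣ z.2 * v.2 - v.1 ∧ (z.1 : ℤ) ∣ z.2 * v.1 + v.2 ∧
        ∃ a b : ℤ, a * v.2 - b * v.1 = 1) := by
    intro z
    by_cases h : z.2 ∈ roots z.1
    · obtain ⟨v, hv⟩ := root_vec h
      exact ⟨v, fun _ => hv⟩
    · exact ⟨0, fun h' => absurd h' h⟩
  choose φ hφ using hex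
  set s : ℤ := ((Nat.sqrt Y : ℕ) : ℤ) with hs
  have hs1 : s * s ≤ Y := by rw [hs]; exact_mod_cast Nat.sqrt_le Y
  have hs2 : (Y : ℤ) < (s + 1) * (s + 1) := by rw [hs]; exact_mod_cast Nat.lt_succ_sqrt Y
  have hs0 : 0 ≤ s := by positivity
  have hs3 : 1 ≤ s := by
    rw [hs]; exact_mod_cast Nat.le_sqrt.2 (by omega)
  have h1 : ((Icc 1 Y).sigma roots).card ≤ (Icc (-s) s ×ˢ Icc (-s) s).card := by
    refine card_le_card_of_injOn φ (fun z hz => ?_) ?_
    · have hz' := mem_sigma.1 hz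
      obtain ⟨e, -⟩ := hφ z hz'.2
      have hle : (z.1 : ℤ) ≤ Y := by exact_mod_cast (mem_Icc.1 hz'.1).2
      simp only [coe_product, coe_Icc, Set.mem_prod, Set.mem_Icc]
      have a1 : |(φ z).1| < s + 1 := abs_lt_of_sq_lt_sq (by nlinarith [sq_nonneg (φ z).2]) (by omega)
      have a2 : |(φ z).2| < s + 1 := abs_lt_of_sq_lt_sq (by nlinarith [sq_nonneg (φ z).1]) (by omega)
      rw [abs_lt] at a1 a2
      omega
    · rintro ⟨d, r⟩ hz ⟨d', r'⟩ hz' e
      have m1 := (mem_sigma.1 hz).2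
      have m2 := (mem_sigma.1 hz').2
      obtain ⟨e1, a1, b1, a, b, hab⟩ := hφ _ m1
      obtain ⟨e2, a2, b2, -⟩ := hφ _ m2
      rw [← e] at e2 a2 b2
      simp only at e1 e2 a1 a2 b1 b2 m1 m2
      have hd : d = d' := by
        have : (d : ℤ) = d' := by rw [e1, e2]
        exact_mod_cast this
      subst hd
      have h3 : (d : ℤ) ∣ (r : ℤ) - r' := by
        have := dvd_sub ((dvd_sub a1 a2).mul_left a) ((dvd_sub b1 b2).mul_left b)
        have e3 : a * (r * (φ ⟨d, r⟩).2 - (φ ⟨d, r⟩).1 - (r' * (φ ⟨d, r⟩).2 - (φ ⟨d, r⟩).1)) -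
            b * (r * (φ ⟨d, r⟩).1 + (φ ⟨d, r⟩).2 - (r' * (φ ⟨d, r⟩).1 + (φ ⟨d, r⟩).2)) =
            (r : ℤ) - r' := by linear_combination ((r : ℤ) - r') * hab
        rwa [e3] at this
      have l1 := mem_range.1 (mem_filter.1 m1).1
      have l2 := mem_range.1 (mem_filter.1 m2).1
      have h4 := Int.eq_zero_of_abs_lt_dvd h3 (by rw [abs_lt]; omega)
      have : r = r' := by omega
      rw [this]
  rw [card_sigma, card_product, Int.card_Icc] at h1
  have h2 : ((s + 1 - -s).toNat : ℤ) = 2 * s + 1 := by omega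
  have h3 : ((∑ d ∈ Icc 1 Y, (roots d).card : ℕ) : ℤ) ≤ 9 * Y := by
    have : ((∑ d ∈ Icc 1 Y, (roots d).card : ℕ) : ℤ) ≤
        ((s + 1 - -s).toNat : ℤ) * ((s + 1 - -s).toNat : ℤ) := by exact_mod_cast h1
    rw [h2] at this
    nlinarith
  exact_mod_cast h3

theorem dyadic (f g : ℕ → ℝ) (hf : ∀ n, 0 ≤ f n)
    (hg : ∀ j, ∑ d ∈ Icc 1 (2 ^ (j + 1)), f d ≤ g j * 2 ^ j) (k : ℕ) :
    ∑ d ∈ Ico 1 (2 ^ k), f d / d ≤ ∑ j ∈ range k, g j := by
  induction k with
  | zero => simp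
  | succ k ih =>
    have h1 : 1 ≤ 2 ^ k := Nat.one_le_two_pow
    have h2 : 2 ^ k ≤ 2 ^ (k + 1) := Nat.pow_le_pow_right two_pos (by omega)
    rw [← sum_Ico_consecutive _ h1 h2, sum_range_succ]
    refine add_le_add ih ?_
    have h3 : ∑ d ∈ Ico (2 ^ k) (2 ^ (k + 1)), f d / d ≤
        ∑ d ∈ Ico (2 ^ k) (2 ^ (k + 1)), f d / 2 ^ k := by
      refine sum_le_sum fun d hd => div_le_div_of_nonneg_left (hf d) (by positivity) ?_
      exact_mod_cast (mem_Ico.1 hd).1
    refine h3.trans ?_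
    rw [← sum_div, div_le_iff₀ (by positivity)]
    refine le_trans (sum_le_sum_of_subset_of_nonneg (fun d hd => ?_) fun d _ _ => hf d) (hg k)
    rw [mem_Ico] at hd
    rw [mem_Icc]; omega

theorem sub_dyadic (Y : ℕ) : Icc 1 Y ⊆ Ico 1 (2 ^ (Nat.log 2 Y + 1)) := by
  intro d hd
  have := Nat.lt_pow_succ_log_self one_lt_two Y
  rw [mem_Icc] at hd
  rw [mem_Ico]
  exact ⟨hd.1, lt_of_le_of_lt hd.2 this⟩

theorem sum_roots_div (Y : ℕ) :
    ∑ d ∈ Icc 1 Y, ((roots d).card : ℝ) / d ≤ 18 * (Nat.log 2 Y + 1) := by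
  have h := dyadic (fun d => ((roots d).card : ℝ)) (fun _ => 18) (fun _ => by positivity)
    (fun j => (sum_roots Nat.one_le_two_pow).trans (by push_cast; rw [pow_succ]; linarith))
    (Nat.log 2 Y + 1)
  refine (sum_le_sum_of_subset_of_nonneg (sub_dyadic Y) fun d _ _ => by positivity).trans
    (h.trans ?_)
  rw [sum_const, card_range, nsmul_eq_mul]
  push_cast; linarith

theorem pi_le {n : ℕ} (hn : 1 < n) :
    (((Icc 1 n).filter Nat.Prime).card : ℝ) ≤ 5 * n / Real.log n := by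
  have hx : (1 : ℝ) < n := by exact_mod_cast hn
  have h := Chebyshev.pi_le_log4_mul_div hx
  rw [Nat.floor_natCast] at h
  have h1 : ((Icc 1 n).filter Nat.Prime).card ≤ Nat.primeCounting n := by
    rw [← Nat.primesLE_card_eq_primeCounting]
    refine card_le_card fun p hp => ?_
    rw [mem_filter, mem_Icc] at hp
    exact Nat.mem_primesLE.2 ⟨hp.1.2, hp.2⟩
  have h2 : (((Icc 1 n).filter Nat.Prime).card : ℝ) ≤ Nat.primeCounting n := by exact_mod_cast h1
  have hl : 0 < Real.log n := Real.log_pos hx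
  have hs : 0 < Real.sqrt n := Real.sqrt_pos.2 (by linarith)
  have h3 : Real.log (Real.sqrt n) = Real.log n / 2 := Real.log_sqrt (by linarith)
  have h4 : Real.log (Real.sqrt n) ≤ Real.sqrt n := (Real.log_le_sub_one_of_pos hs).trans (by linarith)
  have h5 : Real.sqrt n * Real.sqrt n = n := Real.mul_self_sqrt (by linarith)
  have h6 : Real.log 4 ≤ 3 / 2 := by
    rw [show (4 : ℝ) = 2 ^ 2 by norm_num, Real.log_pow]
    have := Real.log_two_lt_d9
    push_cast; linarith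
  rw [h3] at h h4
  have h7 : Real.sqrt n ≤ 2 * n / Real.log n := by
    rw [le_div_iff₀ hl]; nlinarith
  have h8 : Real.log 4 * n / (Real.log n / 2) ≤ 3 * n / Real.log n := by
    rw [div_le_div_iff₀ (by linarith) hl]
    have : 0 ≤ (n : ℝ) * Real.log n := by positivity
    nlinarith
  have h9 : 5 * (n : ℝ) / Real.log n = 3 * n / Real.log n + 2 * n / Real.log n := by ring
  linarith

theorem mertens (L : ℕ) :
    ∑ p ∈ (Icc 1 L).filter Nat.Prime, (1 : ℝ) / p ≤ 15 * (1 + Real.log (Nat.log 2 L + 1)) := by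
  have h := dyadic (fun d => if d.Prime then 1 else 0) (fun j => 15 / (j + 1))
    (fun n => by split_ifs <;> norm_num) (fun j => by
      have h1 := pi_le (n := 2 ^ (j + 1)) (Nat.one_lt_two_pow (by omega))
      rw [sum_boole]
      refine h1.trans ?_
      push_cast
      rw [Real.log_pow, div_mul_eq_mul_div, div_le_div_iff₀ (by
        have := Real.log_pos one_lt_two; positivity) (by positivity), pow_succ]
      have := Real.log_two_gt_d9
      have h2 : (0 : ℝ) < 2 ^ j * (j + 1) := by positivity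
      push_cast
      nlinarith) (Nat.log 2 L + 1)
  have h1 : ∑ p ∈ (Icc 1 L).filter Nat.Prime, (1 : ℝ) / p =
      ∑ d ∈ Icc 1 L, (if d.Prime then (1 : ℝ) else 0) / d := by
    rw [sum_filter]
    refine sum_congr rfl fun d _ => ?_
    split_ifs <;> simp
  rw [h1]
  refine (sum_le_sum_of_subset_of_nonneg (sub_dyadic L) fun d _ _ => by
    split_ifs <;> positivity).trans (h.trans ?_)
  have h2 := harmonic_le_one_add_log (Nat.log 2 L + 1)
  have h3 : ∑ j ∈ range (Nat.log 2 L + 1), (15 : ℝ) / (j + 1) =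
      15 * (harmonic (Nat.log 2 L + 1) : ℝ) := by
    unfold harmonic
    push_cast
    rw [mul_sum]
    exact sum_congr rfl fun j _ => div_eq_mul_inv _ _
  rw [h3]
  push_cast at h2
  linarith

theorem tau_half {m Y : ℕ} (hm : 0 < m) (hY : m ≤ Y * Y) :
    m.divisors.card ≤ 2 * ((Icc 1 Y).filter (· ∣ m)).card := by
  have hsub : m.divisors ⊆ (Icc 1 Y).filter (· ∣ m) ∪
      ((Icc 1 Y).filter (· ∣ m)).image (m / ·) := by
    intro d hd
    obtain ⟨e, he⟩ := Nat.dvd_of_mem_divisors hd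
    have hd0 : 0 < d := Nat.pos_of_mem_divisors hd
    have he0 : 0 < e := Nat.pos_of_ne_zero fun h => by simp [h] at he; omega
    rw [mem_union]
    by_cases h : d ≤ Y
    · exact Or.inl (mem_filter.2 ⟨mem_Icc.2 ⟨hd0, h⟩, e, he⟩)
    · refine Or.inr (mem_image.2 ⟨e, mem_filter.2 ⟨mem_Icc.2 ⟨he0, ?_⟩, d, by rw [he, mul_comm]⟩,
        by rw [he, Nat.mul_div_cancel _ he0]⟩)
      by_contra h'
      have : (Y + 1) * (Y + 1) ≤ d * e := Nat.mul_le_mul (by omega) (by omega)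
      nlinarith
  have := (card_le_card hsub).trans ((card_union_le _ _).trans
    (Nat.add_le_add_left card_image_le _))
  omega

theorem tau_sum {R : ℕ} (hR : 1 ≤ R) (S : Finset (ℕ × ℕ)) (hS : S ⊆ box R)
    (h : ∀ v ∈ S, Nat.Coprime v.1 v.2) :
    ∑ v ∈ S, ((nr v).divisors.card : ℝ) ≤ 432 * R ^ 2 * (Nat.log 2 (2 * R) + 1) := by
  have h1 : ∀ v ∈ S, ((nr v).divisors.card : ℝ) ≤
      2 * ∑ d ∈ Icc 1 (2 * R), if d ∣ nr v then (1 : ℝ) else 0 := by
    intro v hv
    rw [sum_boole]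
    have hb := mem_product.1 (hS hv)
    simp only [mem_range] at hb
    have h0 : 0 < nr v := by
      refine Nat.pos_of_ne_zero fun h0 => ?_
      unfold nr at h0
      have a1 : v.1 = 0 := by
        have : v.1 ^ 2 = 0 := by omega
        simpa using this
      have a2 : v.2 = 0 := by
        have : v.2 ^ 2 = 0 := by omega
        simpa using this
      have := h v hv
      rw [a1, a2] at this
      simp at this
    have h2 : nr v ≤ (2 * R) * (2 * R) := by
      have a1 : v.1 ^ 2 ≤ R ^ 2 := Nat.pow_le_pow_left (by omega) 2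
      have a2 : v.2 ^ 2 ≤ R ^ 2 := Nat.pow_le_pow_left (by omega) 2
      unfold nr; nlinarith
    exact_mod_cast tau_half h0 h2
  refine (sum_le_sum h1).trans ?_
  rw [← mul_sum, sum_comm]
  have h2 : ∀ d ∈ Icc 1 (2 * R), (∑ v ∈ S, if d ∣ nr v then (1 : ℝ) else 0) ≤
      12 * R ^ 2 * (((roots d).card : ℝ) / d) := by
    intro d hd
    rw [mem_Icc] at hd
    rw [sum_boole]
    refine (cnt_dvd (R := R) hd.1 (by nlinarith) _ ((filter_subset _ _).trans hS) fun v hv =>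
      ⟨h v (mem_filter.1 hv).1, (mem_filter.1 hv).2⟩).trans (le_of_eq ?_)
    ring
  have h3 := (sum_le_sum h2)
  rw [← mul_sum] at h3
  have h4 := sum_roots_div (2 * R)
  have h5 : (0 : ℝ) ≤ 12 * R ^ 2 := by positivity
  nlinarith [mul_le_mul_of_nonneg_left h4 h5]

/-- Tail of the sum of inverse squares. -/
theorem tail_sq {I : ℕ} (hI : 0 < I) (S : Finset ℕ) (hS : ∀ q ∈ S, I < q) :
    ∑ q ∈ S, (1 : ℝ) / (q : ℝ) ^ 2 ≤ 1 / I := by
  have hsub : S ⊆ Ioc I (max I (S.sup id)) := fun q hq =>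
    mem_Ioc.2 ⟨hS q hq, le_max_of_le_right (le_sup (f := id) hq)⟩
  have h := sum_Ioc_inv_sq_le_sub (α := ℝ) hI.ne' (le_max_left I (S.sup id))
  simp only [one_div]
  refine (sum_le_sum_of_subset_of_nonneg hsub fun _ _ _ => by positivity).trans (h.trans ?_)
  have : (0 : ℝ) ≤ ((max I (S.sup id) : ℕ) : ℝ)⁻¹ := by positivity
  linarith

end Pool.Agent.Lib.MP_e6b4b8_nt.NL
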